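import Pool.Agent.H60.Hg.Good

/-! Certificate: leaves. -/

namespace H60Hg

theorem k_0_8_1_4 : kexs bt 0 8 1 4 (exs (.B false 0)) = true := by decide +kernel
theorem n_0_8_1_4 : ∀ p ∈ leafBox 0 8 1 4, GoodAt p := leaf (.B false 0) (by decide) (by decide) k_0_8_1_4
theorem k_1_8_2_8 : kexs bt 1 8 2 8 (exs (.B false 0)) = true := by decide +kernel
theorem n_1_8_2_8 : ∀ p ∈ leafBox 1 8 2 8, GoodAt p := leaf (.B false 0) (by decide) (by decide) k_1_8_2_8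
theorem k_1_8_3_8 : kexs bt 1 8 3 8 (exs (.B false 0)) = true := by decide +kernel
theorem n_1_8_3_8 : ∀ p ∈ leafBox 1 8 3 8, GoodAt p := leaf (.B false 0) (by decide) (by decide) k_1_8_3_8
theorem n_1_8_1_4 : ∀ p ∈ leafBox 1 8 1 4, GoodAt p := splitY rfl rfl rfl (by decide) n_1_8_2_8 n_1_8_3_8
theorem n_0_4_1_4 : ∀ p ∈ leafBox 0 4 1 4, GoodAt p := splitX rfl rfl rfl (by decide) n_0_8_1_4 n_1_8_1_4
theorem k_0_16_4_8 : kexs bt 0 16 4 8 (exs (.B false 0)) = true := by decide +kernel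
theorem n_0_16_4_8 : ∀ p ∈ leafBox 0 16 4 8, GoodAt p := leaf (.B false 0) (by decide) (by decide) k_0_16_4_8

end H60Hg
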