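import Pool.Agent.H60.Hg.Good

/-! Certificate: leaves. -/

namespace H60Hg

theorem k_0_64_40_64 : kexs bt 0 64 40 64 (exs (.B' false 1 0 886818879)) = true := by decide +kernel
theorem n_0_64_40_64 : ∀ p ∈ leafBox 0 64 40 64, GoodAt p := leaf (.B' false 1 0 886818879) (by decide) (by decide) k_0_64_40_64
theorem k_0_64_41_64 : kexs bt 0 64 41 64 (exs .A) = true := by decide +kernel
theorem n_0_64_41_64 : ∀ p ∈ leafBox 0 64 41 64, GoodAt p := leaf .A (by decide) (by decide) k_0_64_41_64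
theorem n_0_64_20_32 : ∀ p ∈ leafBox 0 64 20 32, GoodAt p := splitY rfl rfl rfl (by decide) n_0_64_40_64 n_0_64_41_64
theorem k_1_64_40_64 : kexs bt 1 64 40 64 (exs (.B' false 1 0 733882273)) = true := by decide +kernel
theorem n_1_64_40_64 : ∀ p ∈ leafBox 1 64 40 64, GoodAt p := leaf (.B' false 1 0 733882273) (by decide) (by decide) k_1_64_40_64
theorem k_1_64_41_64 : kexs bt 1 64 41 64 (exs .A) = true := by decide +kernel
theorem n_1_64_41_64 : ∀ p ∈ leafBox 1 64 41 64, GoodAt p := leaf .A (by decide) (by decide) k_1_64_41_64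
theorem n_1_64_20_32 : ∀ p ∈ leafBox 1 64 20 32, GoodAt p := splitY rfl rfl rfl (by decide) n_1_64_40_64 n_1_64_41_64
theorem n_0_32_20_32 : ∀ p ∈ leafBox 0 32 20 32, GoodAt p := splitX rfl rfl rfl (by decide) n_0_64_20_32 n_1_64_20_32
theorem k_0_32_21_32 : kexs bt 0 32 21 32 (exs .A) = true := by decide +kernel
theorem n_0_32_21_32 : ∀ p ∈ leafBox 0 32 21 32, GoodAt p := leaf .A (by decide) (by decide) k_0_32_21_32
theorem n_0_32_10_16 : ∀ p ∈ leafBox 0 32 10 16, GoodAt p := splitY rfl rfl rfl (by decide) n_0_32_20_32 n_0_32_21_32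

end H60Hg
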