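import Pool.Agent.H60.Hg.Good

/-! Certificate: leaves. -/

namespace H60Hg

theorem k_2_64_40_64 : kexs bt 2 64 40 64 (exs (.B' false 1 0 588705365)) = true := by decide +kernel
theorem n_2_64_40_64 : ∀ p ∈ leafBox 2 64 40 64, GoodAt p := leaf (.B' false 1 0 588705365) (by decide) (by decide) k_2_64_40_64
theorem k_2_64_41_64 : kexs bt 2 64 41 64 (exs .A) = true := by decide +kernel
theorem n_2_64_41_64 : ∀ p ∈ leafBox 2 64 41 64, GoodAt p := leaf .A (by decide) (by decide) k_2_64_41_64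
theorem n_2_64_20_32 : ∀ p ∈ leafBox 2 64 20 32, GoodAt p := splitY rfl rfl rfl (by decide) n_2_64_40_64 n_2_64_41_64
theorem k_3_64_40_64 : kexs bt 3 64 40 64 (exs (.B' false 1 0 455566308)) = true := by decide +kernel
theorem n_3_64_40_64 : ∀ p ∈ leafBox 3 64 40 64, GoodAt p := leaf (.B' false 1 0 455566308) (by decide) (by decide) k_3_64_40_64
theorem k_3_64_41_64 : kexs bt 3 64 41 64 (exs .A) = true := by decide +kernel
theorem n_3_64_41_64 : ∀ p ∈ leafBox 3 64 41 64, GoodAt p := leaf .A (by decide) (by decide) k_3_64_41_64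
theorem n_3_64_20_32 : ∀ p ∈ leafBox 3 64 20 32, GoodAt p := splitY rfl rfl rfl (by decide) n_3_64_40_64 n_3_64_41_64
theorem n_1_32_20_32 : ∀ p ∈ leafBox 1 32 20 32, GoodAt p := splitX rfl rfl rfl (by decide) n_2_64_20_32 n_3_64_20_32
theorem k_1_32_21_32 : kexs bt 1 32 21 32 (exs .A) = true := by decide +kernel
theorem n_1_32_21_32 : ∀ p ∈ leafBox 1 32 21 32, GoodAt p := leaf .A (by decide) (by decide) k_1_32_21_32
theorem n_1_32_10_16 : ∀ p ∈ leafBox 1 32 10 16, GoodAt p := splitY rfl rfl rfl (by decide) n_1_32_20_32 n_1_32_21_32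
theorem k_0_16_11_16 : kexs bt 0 16 11 16 (exs .A) = true := by decide +kernel
theorem n_0_16_11_16 : ∀ p ∈ leafBox 0 16 11 16, GoodAt p := leaf .A (by decide) (by decide) k_0_16_11_16

end H60Hg
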