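import Pool.Agent.H60.Hg.Good

/-! Certificate: leaves. -/

namespace H60Hg

theorem k_2_32_20_32 : kexs bt 2 32 20 32 (exs (.B' false 1 0 470207975)) = true := by decide +kernel
theorem n_2_32_20_32 : ∀ p ∈ leafBox 2 32 20 32, GoodAt p := leaf (.B' false 1 0 470207975) (by decide) (by decide) k_2_32_20_32
theorem k_2_32_21_32 : kexs bt 2 32 21 32 (exs .A) = true := by decide +kernel
theorem n_2_32_21_32 : ∀ p ∈ leafBox 2 32 21 32, GoodAt p := leaf .A (by decide) (by decide) k_2_32_21_32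
theorem n_2_32_10_16 : ∀ p ∈ leafBox 2 32 10 16, GoodAt p := splitY rfl rfl rfl (by decide) n_2_32_20_32 n_2_32_21_32
theorem k_3_32_10_16 : kexs bt 3 32 10 16 (exs .A) = true := by decide +kernel
theorem n_3_32_10_16 : ∀ p ∈ leafBox 3 32 10 16, GoodAt p := leaf .A (by decide) (by decide) k_3_32_10_16
theorem n_1_16_10_16 : ∀ p ∈ leafBox 1 16 10 16, GoodAt p := splitX rfl rfl rfl (by decide) n_2_32_10_16 n_3_32_10_16
theorem k_2_32_11_16 : kexs bt 2 32 11 16 (exs .A) = true := by decide +kernel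
theorem n_2_32_11_16 : ∀ p ∈ leafBox 2 32 11 16, GoodAt p := leaf .A (by decide) (by decide) k_2_32_11_16
theorem k_3_32_22_32 : kexs bt 3 32 22 32 (exs .A) = true := by decide +kernel
theorem n_3_32_22_32 : ∀ p ∈ leafBox 3 32 22 32, GoodAt p := leaf .A (by decide) (by decide) k_3_32_22_32
theorem k_3_32_23_32 : kexs bt 3 32 23 32 (exs (.B' true 1 0 0)) = true := by decide +kernel
theorem n_3_32_23_32 : ∀ p ∈ leafBox 3 32 23 32, GoodAt p := leaf (.B' true 1 0 0) (by decide) (by decide) k_3_32_23_32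
theorem n_3_32_11_16 : ∀ p ∈ leafBox 3 32 11 16, GoodAt p := splitY rfl rfl rfl (by decide) n_3_32_22_32 n_3_32_23_32
theorem n_1_16_11_16 : ∀ p ∈ leafBox 1 16 11 16, GoodAt p := splitX rfl rfl rfl (by decide) n_2_32_11_16 n_3_32_11_16
theorem n_1_16_5_8 : ∀ p ∈ leafBox 1 16 5 8, GoodAt p := splitY rfl rfl rfl (by decide) n_1_16_10_16 n_1_16_11_16

end H60Hg
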