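import Pool.Agent.H60.Hg.Good

/-! Certificate: leaves. -/

namespace H60Hg

theorem k_2_16_8_16 : kexs bt 2 16 8 16 (exs (.B false 0)) = true := by decide +kernel
theorem n_2_16_8_16 : ∀ p ∈ leafBox 2 16 8 16, GoodAt p := leaf (.B false 0) (by decide) (by decide) k_2_16_8_16

end H60Hg
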