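import Pool.Agent.H60.Hg.Good

/-! Certificate: leaves. -/

namespace H60Hg

theorem k_4_32_18_32 : kexs bt 4 32 18 32 (exs (.B false 0)) = true := by decide +kernel
theorem n_4_32_18_32 : ∀ p ∈ leafBox 4 32 18 32, GoodAt p := leaf (.B false 0) (by decide) (by decide) k_4_32_18_32
theorem k_8_64_38_64 : kexs bt 8 64 38 64 (exs (.B' false 1 0 0)) = true := by decide +kernel
theorem n_8_64_38_64 : ∀ p ∈ leafBox 8 64 38 64, GoodAt p := leaf (.B' false 1 0 0) (by decide) (by decide) k_8_64_38_64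
theorem k_8_64_39_64 : kexs bt 8 64 39 64 (exs (.B' false 1 0 45684409)) = true := by decide +kernel
theorem n_8_64_39_64 : ∀ p ∈ leafBox 8 64 39 64, GoodAt p := leaf (.B' false 1 0 45684409) (by decide) (by decide) k_8_64_39_64
theorem n_8_64_19_32 : ∀ p ∈ leafBox 8 64 19 32, GoodAt p := splitY rfl rfl rfl (by decide) n_8_64_38_64 n_8_64_39_64
theorem k_9_64_19_32 : kexs bt 9 64 19 32 (exs (.B' false 1 0 14685191)) = true := by decide +kernel
theorem n_9_64_19_32 : ∀ p ∈ leafBox 9 64 19 32, GoodAt p := leaf (.B' false 1 0 14685191) (by decide) (by decide) k_9_64_19_32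
theorem n_4_32_19_32 : ∀ p ∈ leafBox 4 32 19 32, GoodAt p := splitX rfl rfl rfl (by decide) n_8_64_19_32 n_9_64_19_32
theorem n_4_32_9_16 : ∀ p ∈ leafBox 4 32 9 16, GoodAt p := splitY rfl rfl rfl (by decide) n_4_32_18_32 n_4_32_19_32
theorem k_5_32_18_32 : kexs bt 5 32 18 32 (exs (.B' false 1 0 0)) = true := by decide +kernel
theorem n_5_32_18_32 : ∀ p ∈ leafBox 5 32 18 32, GoodAt p := leaf (.B' false 1 0 0) (by decide) (by decide) k_5_32_18_32
theorem k_5_32_19_32 : kexs bt 5 32 19 32 (exs (.B' false 1 0 11481489)) = true := by decide +kernel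
theorem n_5_32_19_32 : ∀ p ∈ leafBox 5 32 19 32, GoodAt p := leaf (.B' false 1 0 11481489) (by decide) (by decide) k_5_32_19_32
theorem n_5_32_9_16 : ∀ p ∈ leafBox 5 32 9 16, GoodAt p := splitY rfl rfl rfl (by decide) n_5_32_18_32 n_5_32_19_32
theorem n_2_16_9_16 : ∀ p ∈ leafBox 2 16 9 16, GoodAt p := splitX rfl rfl rfl (by decide) n_4_32_9_16 n_5_32_9_16

end H60Hg
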