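import Pool.Agent.H60.Hg.Good

/-! Certificate: leaves. -/

namespace H60Hg

theorem k_3_16_8_16 : kexs bt 3 16 8 16 (exs (.B' false 1 0 0)) = true := by decide +kernel
theorem n_3_16_8_16 : ∀ p ∈ leafBox 3 16 8 16, GoodAt p := leaf (.B' false 1 0 0) (by decide) (by decide) k_3_16_8_16
theorem k_6_32_18_32 : kexs bt 6 32 18 32 (exs (.B' false 1 0 0)) = true := by decide +kernel
theorem n_6_32_18_32 : ∀ p ∈ leafBox 6 32 18 32, GoodAt p := leaf (.B' false 1 0 0) (by decide) (by decide) k_6_32_18_32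
theorem k_6_32_19_32 : kexs bt 6 32 19 32 (exs .A) = true := by decide +kernel
theorem n_6_32_19_32 : ∀ p ∈ leafBox 6 32 19 32, GoodAt p := leaf .A (by decide) (by decide) k_6_32_19_32
theorem n_6_32_9_16 : ∀ p ∈ leafBox 6 32 9 16, GoodAt p := splitY rfl rfl rfl (by decide) n_6_32_18_32 n_6_32_19_32
theorem k_7_32_9_16 : kexs bt 7 32 9 16 (exs (.B' false 1 0 856848)) = true := by decide +kernel
theorem n_7_32_9_16 : ∀ p ∈ leafBox 7 32 9 16, GoodAt p := leaf (.B' false 1 0 856848) (by decide) (by decide) k_7_32_9_16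
theorem n_3_16_9_16 : ∀ p ∈ leafBox 3 16 9 16, GoodAt p := splitX rfl rfl rfl (by decide) n_6_32_9_16 n_7_32_9_16
theorem n_3_16_4_8 : ∀ p ∈ leafBox 3 16 4 8, GoodAt p := splitY rfl rfl rfl (by decide) n_3_16_8_16 n_3_16_9_16

end H60Hg
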