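import Pool.Agent.H60.Hg.Good

/-! Certificate: leaves. -/

namespace H60Hg

theorem k_2_16_10_16 : kexs bt 2 16 10 16 (exs .A) = true := by decide +kernel
theorem n_2_16_10_16 : ∀ p ∈ leafBox 2 16 10 16, GoodAt p := leaf .A (by decide) (by decide) k_2_16_10_16
theorem k_2_16_11_16 : kexs bt 2 16 11 16 (exs (.B' true 1 0 0)) = true := by decide +kernel
theorem n_2_16_11_16 : ∀ p ∈ leafBox 2 16 11 16, GoodAt p := leaf (.B' true 1 0 0) (by decide) (by decide) k_2_16_11_16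
theorem n_2_16_5_8 : ∀ p ∈ leafBox 2 16 5 8, GoodAt p := splitY rfl rfl rfl (by decide) n_2_16_10_16 n_2_16_11_16
theorem k_3_16_10_16 : kexs bt 3 16 10 16 (exs .A) = true := by decide +kernel
theorem n_3_16_10_16 : ∀ p ∈ leafBox 3 16 10 16, GoodAt p := leaf .A (by decide) (by decide) k_3_16_10_16
theorem k_6_32_11_16 : kexs bt 6 32 11 16 (exs (.B' true 4 77 0)) = true := by decide +kernel
theorem n_6_32_11_16 : ∀ p ∈ leafBox 6 32 11 16, GoodAt p := leaf (.B' true 4 77 0) (by decide) (by decide) k_6_32_11_16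
theorem k_7_32_22_32 : kexs bt 7 32 22 32 (exs (.B' true 1 0 0)) = true := by decide +kernel
theorem n_7_32_22_32 : ∀ p ∈ leafBox 7 32 22 32, GoodAt p := leaf (.B' true 1 0 0) (by decide) (by decide) k_7_32_22_32
theorem k_7_32_23_32 : kexs bt 7 32 23 32 (exs (.B true 0)) = true := by decide +kernel
theorem n_7_32_23_32 : ∀ p ∈ leafBox 7 32 23 32, GoodAt p := leaf (.B true 0) (by decide) (by decide) k_7_32_23_32
theorem n_7_32_11_16 : ∀ p ∈ leafBox 7 32 11 16, GoodAt p := splitY rfl rfl rfl (by decide) n_7_32_22_32 n_7_32_23_32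
theorem n_3_16_11_16 : ∀ p ∈ leafBox 3 16 11 16, GoodAt p := splitX rfl rfl rfl (by decide) n_6_32_11_16 n_7_32_11_16
theorem n_3_16_5_8 : ∀ p ∈ leafBox 3 16 5 8, GoodAt p := splitY rfl rfl rfl (by decide) n_3_16_10_16 n_3_16_11_16
theorem n_1_8_5_8 : ∀ p ∈ leafBox 1 8 5 8, GoodAt p := splitX rfl rfl rfl (by decide) n_2_16_5_8 n_3_16_5_8

end H60Hg
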