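import Pool.Agent.H60.Hg.Good

/-! Certificate: leaves. -/

namespace H60Hg

theorem k_0_32_24_32 : kexs bt 0 32 24 32 (exs (.B' true 1 1368 0)) = true := by decide +kernel
theorem n_0_32_24_32 : ∀ p ∈ leafBox 0 32 24 32, GoodAt p := leaf (.B' true 1 1368 0) (by decide) (by decide) k_0_32_24_32
theorem k_0_32_25_32 : kexs bt 0 32 25 32 (exs (.B true 0)) = true := by decide +kernel
theorem n_0_32_25_32 : ∀ p ∈ leafBox 0 32 25 32, GoodAt p := leaf (.B true 0) (by decide) (by decide) k_0_32_25_32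
theorem n_0_32_12_16 : ∀ p ∈ leafBox 0 32 12 16, GoodAt p := splitY rfl rfl rfl (by decide) n_0_32_24_32 n_0_32_25_32
theorem k_1_32_24_32 : kexs bt 1 32 24 32 (exs (.B' true 1 1046 0)) = true := by decide +kernel
theorem n_1_32_24_32 : ∀ p ∈ leafBox 1 32 24 32, GoodAt p := leaf (.B' true 1 1046 0) (by decide) (by decide) k_1_32_24_32
theorem k_1_32_25_32 : kexs bt 1 32 25 32 (exs (.B true 0)) = true := by decide +kernel
theorem n_1_32_25_32 : ∀ p ∈ leafBox 1 32 25 32, GoodAt p := leaf (.B true 0) (by decide) (by decide) k_1_32_25_32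
theorem n_1_32_12_16 : ∀ p ∈ leafBox 1 32 12 16, GoodAt p := splitY rfl rfl rfl (by decide) n_1_32_24_32 n_1_32_25_32
theorem n_0_16_12_16 : ∀ p ∈ leafBox 0 16 12 16, GoodAt p := splitX rfl rfl rfl (by decide) n_0_32_12_16 n_1_32_12_16
theorem k_0_16_13_16 : kexs bt 0 16 13 16 (exs (.B true 0)) = true := by decide +kernel
theorem n_0_16_13_16 : ∀ p ∈ leafBox 0 16 13 16, GoodAt p := leaf (.B true 0) (by decide) (by decide) k_0_16_13_16
theorem n_0_16_6_8 : ∀ p ∈ leafBox 0 16 6 8, GoodAt p := splitY rfl rfl rfl (by decide) n_0_16_12_16 n_0_16_13_16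

end H60Hg
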