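import Pool.Agent.H60.Hg.Good

/-! Certificate: leaves. -/

namespace H60Hg

theorem k_4_16_0_16 : kexs bt 4 16 0 16 (exs .A) = true := by decide +kernel
theorem n_4_16_0_16 : ∀ p ∈ leafBox 4 16 0 16, GoodAt p := leaf .A (by decide) (by decide) k_4_16_0_16
theorem k_8_32_1_16 : kexs bt 8 32 1 16 (exs (.B' false 1 0 0)) = true := by decide +kernel
theorem n_8_32_1_16 : ∀ p ∈ leafBox 8 32 1 16, GoodAt p := leaf (.B' false 1 0 0) (by decide) (by decide) k_8_32_1_16
theorem k_9_32_1_16 : kexs bt 9 32 1 16 (exs .A) = true := by decide +kernel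
theorem n_9_32_1_16 : ∀ p ∈ leafBox 9 32 1 16, GoodAt p := leaf .A (by decide) (by decide) k_9_32_1_16
theorem n_4_16_1_16 : ∀ p ∈ leafBox 4 16 1 16, GoodAt p := splitX rfl rfl rfl (by decide) n_8_32_1_16 n_9_32_1_16
theorem n_4_16_0_8 : ∀ p ∈ leafBox 4 16 0 8, GoodAt p := splitY rfl rfl rfl (by decide) n_4_16_0_16 n_4_16_1_16

end H60Hg
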