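import Pool.Agent.H60.Hg.Good

/-! Certificate: leaves. -/

namespace H60Hg

theorem k_4_16_1_8 : kexs bt 4 16 1 8 (exs (.B' false 1 168 0)) = true := by decide +kernel
theorem n_4_16_1_8 : ∀ p ∈ leafBox 4 16 1 8, GoodAt p := leaf (.B' false 1 168 0) (by decide) (by decide) k_4_16_1_8
theorem k_10_32_4_32 : kexs bt 10 32 4 32 (exs .A) = true := by decide +kernel
theorem n_10_32_4_32 : ∀ p ∈ leafBox 10 32 4 32, GoodAt p := leaf .A (by decide) (by decide) k_10_32_4_32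
theorem k_10_32_5_32 : kexs bt 10 32 5 32 (exs (.B' false 1 0 0)) = true := by decide +kernel
theorem n_10_32_5_32 : ∀ p ∈ leafBox 10 32 5 32, GoodAt p := leaf (.B' false 1 0 0) (by decide) (by decide) k_10_32_5_32
theorem n_10_32_2_16 : ∀ p ∈ leafBox 10 32 2 16, GoodAt p := splitY rfl rfl rfl (by decide) n_10_32_4_32 n_10_32_5_32
theorem k_11_32_2_16 : kexs bt 11 32 2 16 (exs .A) = true := by decide +kernel
theorem n_11_32_2_16 : ∀ p ∈ leafBox 11 32 2 16, GoodAt p := leaf .A (by decide) (by decide) k_11_32_2_16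
theorem n_5_16_2_16 : ∀ p ∈ leafBox 5 16 2 16, GoodAt p := splitX rfl rfl rfl (by decide) n_10_32_2_16 n_11_32_2_16
theorem k_5_16_3_16 : kexs bt 5 16 3 16 (exs (.B' false 1 78 0)) = true := by decide +kernel
theorem n_5_16_3_16 : ∀ p ∈ leafBox 5 16 3 16, GoodAt p := leaf (.B' false 1 78 0) (by decide) (by decide) k_5_16_3_16
theorem n_5_16_1_8 : ∀ p ∈ leafBox 5 16 1 8, GoodAt p := splitY rfl rfl rfl (by decide) n_5_16_2_16 n_5_16_3_16
theorem n_2_8_1_8 : ∀ p ∈ leafBox 2 8 1 8, GoodAt p := splitX rfl rfl rfl (by decide) n_4_16_1_8 n_5_16_1_8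

end H60Hg
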