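import Pool.Agent.H60.Hg.Good

/-! Certificate: leaves. -/

namespace H60Hg

theorem k_12_32_0_16 : kexs bt 12 32 0 16 (exs (.B' true 1 0 391168809)) = true := by decide +kernel
theorem n_12_32_0_16 : ∀ p ∈ leafBox 12 32 0 16, GoodAt p := leaf (.B' true 1 0 391168809) (by decide) (by decide) k_12_32_0_16
theorem k_13_32_0_16 : kexs bt 13 32 0 16 (exs (.B true 0)) = true := by decide +kernel
theorem n_13_32_0_16 : ∀ p ∈ leafBox 13 32 0 16, GoodAt p := leaf (.B true 0) (by decide) (by decide) k_13_32_0_16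
theorem n_6_16_0_16 : ∀ p ∈ leafBox 6 16 0 16, GoodAt p := splitX rfl rfl rfl (by decide) n_12_32_0_16 n_13_32_0_16

end H60Hg
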