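import Pool.Agent.H60.Hg.Good

/-! Certificate: leaves. -/

namespace H60Hg

theorem k_24_64_2_32 : kexs bt 24 64 2 32 (exs (.B' true 1 0 439541567)) = true := by decide +kernel
theorem n_24_64_2_32 : ∀ p ∈ leafBox 24 64 2 32, GoodAt p := leaf (.B' true 1 0 439541567) (by decide) (by decide) k_24_64_2_32
theorem k_25_64_2_32 : kexs bt 25 64 2 32 (exs (.B' true 1 0 182308901)) = true := by decide +kernel
theorem n_25_64_2_32 : ∀ p ∈ leafBox 25 64 2 32, GoodAt p := leaf (.B' true 1 0 182308901) (by decide) (by decide) k_25_64_2_32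
theorem n_12_32_2_32 : ∀ p ∈ leafBox 12 32 2 32, GoodAt p := splitX rfl rfl rfl (by decide) n_24_64_2_32 n_25_64_2_32
theorem k_24_64_3_32 : kexs bt 24 64 3 32 (exs .A) = true := by decide +kernel
theorem n_24_64_3_32 : ∀ p ∈ leafBox 24 64 3 32, GoodAt p := leaf .A (by decide) (by decide) k_24_64_3_32
theorem k_25_64_3_32 : kexs bt 25 64 3 32 (exs (.B' true 1 0 199081234)) = true := by decide +kernel
theorem n_25_64_3_32 : ∀ p ∈ leafBox 25 64 3 32, GoodAt p := leaf (.B' true 1 0 199081234) (by decide) (by decide) k_25_64_3_32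
theorem n_12_32_3_32 : ∀ p ∈ leafBox 12 32 3 32, GoodAt p := splitX rfl rfl rfl (by decide) n_24_64_3_32 n_25_64_3_32
theorem n_12_32_1_16 : ∀ p ∈ leafBox 12 32 1 16, GoodAt p := splitY rfl rfl rfl (by decide) n_12_32_2_32 n_12_32_3_32
theorem k_13_32_1_16 : kexs bt 13 32 1 16 (exs (.B' true 1 0 87240759)) = true := by decide +kernel
theorem n_13_32_1_16 : ∀ p ∈ leafBox 13 32 1 16, GoodAt p := leaf (.B' true 1 0 87240759) (by decide) (by decide) k_13_32_1_16
theorem n_6_16_1_16 : ∀ p ∈ leafBox 6 16 1 16, GoodAt p := splitX rfl rfl rfl (by decide) n_12_32_1_16 n_13_32_1_16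
theorem k_7_16_0_8 : kexs bt 7 16 0 8 (exs (.B true 0)) = true := by decide +kernel
theorem n_7_16_0_8 : ∀ p ∈ leafBox 7 16 0 8, GoodAt p := leaf (.B true 0) (by decide) (by decide) k_7_16_0_8

end H60Hg
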