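import Pool.Agent.H60.Hg.Good

/-! Certificate: leaves. -/

namespace H60Hg

theorem k_12_32_2_16 : kexs bt 12 32 2 16 (exs .A) = true := by decide +kernel
theorem n_12_32_2_16 : ∀ p ∈ leafBox 12 32 2 16, GoodAt p := leaf .A (by decide) (by decide) k_12_32_2_16
theorem k_26_64_4_32 : kexs bt 26 64 4 32 (exs (.B' true 1 0 105548788)) = true := by decide +kernel
theorem n_26_64_4_32 : ∀ p ∈ leafBox 26 64 4 32, GoodAt p := leaf (.B' true 1 0 105548788) (by decide) (by decide) k_26_64_4_32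
theorem k_27_64_4_32 : kexs bt 27 64 4 32 (exs (.B' true 1 0 62243937)) = true := by decide +kernel
theorem n_27_64_4_32 : ∀ p ∈ leafBox 27 64 4 32, GoodAt p := leaf (.B' true 1 0 62243937) (by decide) (by decide) k_27_64_4_32
theorem n_13_32_4_32 : ∀ p ∈ leafBox 13 32 4 32, GoodAt p := splitX rfl rfl rfl (by decide) n_26_64_4_32 n_27_64_4_32
theorem k_13_32_5_32 : kexs bt 13 32 5 32 (exs (.B' true 1 0 699282310)) = true := by decide +kernel
theorem n_13_32_5_32 : ∀ p ∈ leafBox 13 32 5 32, GoodAt p := leaf (.B' true 1 0 699282310) (by decide) (by decide) k_13_32_5_32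
theorem n_13_32_2_16 : ∀ p ∈ leafBox 13 32 2 16, GoodAt p := splitY rfl rfl rfl (by decide) n_13_32_4_32 n_13_32_5_32
theorem n_6_16_2_16 : ∀ p ∈ leafBox 6 16 2 16, GoodAt p := splitX rfl rfl rfl (by decide) n_12_32_2_16 n_13_32_2_16
theorem k_6_16_3_16 : kexs bt 6 16 3 16 (exs .A) = true := by decide +kernel
theorem n_6_16_3_16 : ∀ p ∈ leafBox 6 16 3 16, GoodAt p := leaf .A (by decide) (by decide) k_6_16_3_16
theorem n_6_16_1_8 : ∀ p ∈ leafBox 6 16 1 8, GoodAt p := splitY rfl rfl rfl (by decide) n_6_16_2_16 n_6_16_3_16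

end H60Hg
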