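import Pool.Agent.H60.Hg.Good

/-! Certificate: leaves. -/

namespace H60Hg

theorem k_14_32_4_32 : kexs bt 14 32 4 32 (exs (.B true 0)) = true := by decide +kernel
theorem n_14_32_4_32 : ∀ p ∈ leafBox 14 32 4 32, GoodAt p := leaf (.B true 0) (by decide) (by decide) k_14_32_4_32
theorem k_28_64_5_32 : kexs bt 28 64 5 32 (exs (.B' true 1 0 38999831)) = true := by decide +kernel
theorem n_28_64_5_32 : ∀ p ∈ leafBox 28 64 5 32, GoodAt p := leaf (.B' true 1 0 38999831) (by decide) (by decide) k_28_64_5_32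
theorem k_29_64_5_32 : kexs bt 29 64 5 32 (exs (.B' true 1 0 24758092)) = true := by decide +kernel
theorem n_29_64_5_32 : ∀ p ∈ leafBox 29 64 5 32, GoodAt p := leaf (.B' true 1 0 24758092) (by decide) (by decide) k_29_64_5_32
theorem n_14_32_5_32 : ∀ p ∈ leafBox 14 32 5 32, GoodAt p := splitX rfl rfl rfl (by decide) n_28_64_5_32 n_29_64_5_32
theorem n_14_32_2_16 : ∀ p ∈ leafBox 14 32 2 16, GoodAt p := splitY rfl rfl rfl (by decide) n_14_32_4_32 n_14_32_5_32
theorem k_15_32_2_16 : kexs bt 15 32 2 16 (exs (.B true 0)) = true := by decide +kernel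
theorem n_15_32_2_16 : ∀ p ∈ leafBox 15 32 2 16, GoodAt p := leaf (.B true 0) (by decide) (by decide) k_15_32_2_16
theorem n_7_16_2_16 : ∀ p ∈ leafBox 7 16 2 16, GoodAt p := splitX rfl rfl rfl (by decide) n_14_32_2_16 n_15_32_2_16

end H60Hg
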