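import Pool.Agent.H60.Hg.Good

/-! Certificate: leaves. -/

namespace H60Hg

theorem k_14_32_6_32 : kexs bt 14 32 6 32 (exs (.B' true 1 0 38879929)) = true := by decide +kernel
theorem n_14_32_6_32 : ∀ p ∈ leafBox 14 32 6 32, GoodAt p := leaf (.B' true 1 0 38879929) (by decide) (by decide) k_14_32_6_32
theorem k_14_32_7_32 : kexs bt 14 32 7 32 (exs .A) = true := by decide +kernel
theorem n_14_32_7_32 : ∀ p ∈ leafBox 14 32 7 32, GoodAt p := leaf .A (by decide) (by decide) k_14_32_7_32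
theorem n_14_32_3_16 : ∀ p ∈ leafBox 14 32 3 16, GoodAt p := splitY rfl rfl rfl (by decide) n_14_32_6_32 n_14_32_7_32
theorem k_30_64_6_32 : kexs bt 30 64 6 32 (exs (.B' true 1 0 15639840)) = true := by decide +kernel
theorem n_30_64_6_32 : ∀ p ∈ leafBox 30 64 6 32, GoodAt p := leaf (.B' true 1 0 15639840) (by decide) (by decide) k_30_64_6_32
theorem k_31_64_6_32 : kexs bt 31 64 6 32 (exs (.B' true 1 0 9484228)) = true := by decide +kernel
theorem n_31_64_6_32 : ∀ p ∈ leafBox 31 64 6 32, GoodAt p := leaf (.B' true 1 0 9484228) (by decide) (by decide) k_31_64_6_32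
theorem n_15_32_6_32 : ∀ p ∈ leafBox 15 32 6 32, GoodAt p := splitX rfl rfl rfl (by decide) n_30_64_6_32 n_31_64_6_32
theorem k_15_32_7_32 : kexs bt 15 32 7 32 (exs .A) = true := by decide +kernel
theorem n_15_32_7_32 : ∀ p ∈ leafBox 15 32 7 32, GoodAt p := leaf .A (by decide) (by decide) k_15_32_7_32
theorem n_15_32_3_16 : ∀ p ∈ leafBox 15 32 3 16, GoodAt p := splitY rfl rfl rfl (by decide) n_15_32_6_32 n_15_32_7_32
theorem n_7_16_3_16 : ∀ p ∈ leafBox 7 16 3 16, GoodAt p := splitX rfl rfl rfl (by decide) n_14_32_3_16 n_15_32_3_16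

end H60Hg
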