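import Pool.Agent.H60.Hg.Good

/-! Certificate: leaves. -/

namespace H60Hg

theorem k_6_16_2_8 : kexs bt 6 16 2 8 (exs (.B' false 32 70 0)) = true := by decide +kernel
theorem n_6_16_2_8 : ∀ p ∈ leafBox 6 16 2 8, GoodAt p := leaf (.B' false 32 70 0) (by decide) (by decide) k_6_16_2_8
theorem k_7_16_4_16 : kexs bt 7 16 4 16 (exs .A) = true := by decide +kernel
theorem n_7_16_4_16 : ∀ p ∈ leafBox 7 16 4 16, GoodAt p := leaf .A (by decide) (by decide) k_7_16_4_16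
theorem k_7_16_5_16 : kexs bt 7 16 5 16 (exs (.B' false 1 0 85319)) = true := by decide +kernel
theorem n_7_16_5_16 : ∀ p ∈ leafBox 7 16 5 16, GoodAt p := leaf (.B' false 1 0 85319) (by decide) (by decide) k_7_16_5_16
theorem n_7_16_2_8 : ∀ p ∈ leafBox 7 16 2 8, GoodAt p := splitY rfl rfl rfl (by decide) n_7_16_4_16 n_7_16_5_16
theorem n_3_8_2_8 : ∀ p ∈ leafBox 3 8 2 8, GoodAt p := splitX rfl rfl rfl (by decide) n_6_16_2_8 n_7_16_2_8
theorem k_6_16_3_8 : kexs bt 6 16 3 8 (exs (.B' false 1 0 146572)) = true := by decide +kernel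
theorem n_6_16_3_8 : ∀ p ∈ leafBox 6 16 3 8, GoodAt p := leaf (.B' false 1 0 146572) (by decide) (by decide) k_6_16_3_8
theorem k_7_16_6_16 : kexs bt 7 16 6 16 (exs (.B' false 1 0 125838)) = true := by decide +kernel
theorem n_7_16_6_16 : ∀ p ∈ leafBox 7 16 6 16, GoodAt p := leaf (.B' false 1 0 125838) (by decide) (by decide) k_7_16_6_16
theorem k_7_16_7_16 : kexs bt 7 16 7 16 (exs .A) = true := by decide +kernel
theorem n_7_16_7_16 : ∀ p ∈ leafBox 7 16 7 16, GoodAt p := leaf .A (by decide) (by decide) k_7_16_7_16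
theorem n_7_16_3_8 : ∀ p ∈ leafBox 7 16 3 8, GoodAt p := splitY rfl rfl rfl (by decide) n_7_16_6_16 n_7_16_7_16
theorem n_3_8_3_8 : ∀ p ∈ leafBox 3 8 3 8, GoodAt p := splitX rfl rfl rfl (by decide) n_6_16_3_8 n_7_16_3_8
theorem n_3_8_1_4 : ∀ p ∈ leafBox 3 8 1 4, GoodAt p := splitY rfl rfl rfl (by decide) n_3_8_2_8 n_3_8_3_8

end H60Hg
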