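import Pool.Agent.H60.Hg.Good

/-! Certificate: leaves. -/

namespace H60Hg

theorem k_4_16_8_16 : kexs bt 4 16 8 16 (exs (.B' false 1 0 104776)) = true := by decide +kernel
theorem n_4_16_8_16 : ∀ p ∈ leafBox 4 16 8 16, GoodAt p := leaf (.B' false 1 0 104776) (by decide) (by decide) k_4_16_8_16
theorem k_4_16_9_16 : kexs bt 4 16 9 16 (exs .A) = true := by decide +kernel
theorem n_4_16_9_16 : ∀ p ∈ leafBox 4 16 9 16, GoodAt p := leaf .A (by decide) (by decide) k_4_16_9_16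
theorem n_4_16_4_8 : ∀ p ∈ leafBox 4 16 4 8, GoodAt p := splitY rfl rfl rfl (by decide) n_4_16_8_16 n_4_16_9_16
theorem k_5_16_8_16 : kexs bt 5 16 8 16 (exs (.B' false 1 0 166525)) = true := by decide +kernel
theorem n_5_16_8_16 : ∀ p ∈ leafBox 5 16 8 16, GoodAt p := leaf (.B' false 1 0 166525) (by decide) (by decide) k_5_16_8_16
theorem k_5_16_9_16 : kexs bt 5 16 9 16 (exs .A) = true := by decide +kernel
theorem n_5_16_9_16 : ∀ p ∈ leafBox 5 16 9 16, GoodAt p := leaf .A (by decide) (by decide) k_5_16_9_16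
theorem n_5_16_4_8 : ∀ p ∈ leafBox 5 16 4 8, GoodAt p := splitY rfl rfl rfl (by decide) n_5_16_8_16 n_5_16_9_16
theorem n_2_8_4_8 : ∀ p ∈ leafBox 2 8 4 8, GoodAt p := splitX rfl rfl rfl (by decide) n_4_16_4_8 n_5_16_4_8

end H60Hg
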