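import Pool.Agent.H60.Hg.Good

/-! Certificate: leaves. -/

namespace H60Hg

theorem k_4_16_10_16 : kexs bt 4 16 10 16 (exs .A) = true := by decide +kernel
theorem n_4_16_10_16 : ∀ p ∈ leafBox 4 16 10 16, GoodAt p := leaf .A (by decide) (by decide) k_4_16_10_16
theorem k_8_32_22_32 : kexs bt 8 32 22 32 (exs (.B' true 8 65 0)) = true := by decide +kernel
theorem n_8_32_22_32 : ∀ p ∈ leafBox 8 32 22 32, GoodAt p := leaf (.B' true 8 65 0) (by decide) (by decide) k_8_32_22_32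
theorem k_8_32_23_32 : kexs bt 8 32 23 32 (exs (.B true 0)) = true := by decide +kernel
theorem n_8_32_23_32 : ∀ p ∈ leafBox 8 32 23 32, GoodAt p := leaf (.B true 0) (by decide) (by decide) k_8_32_23_32
theorem n_8_32_11_16 : ∀ p ∈ leafBox 8 32 11 16, GoodAt p := splitY rfl rfl rfl (by decide) n_8_32_22_32 n_8_32_23_32
theorem k_9_32_22_32 : kexs bt 9 32 22 32 (exs (.B' true 8 66 0)) = true := by decide +kernel
theorem n_9_32_22_32 : ∀ p ∈ leafBox 9 32 22 32, GoodAt p := leaf (.B' true 8 66 0) (by decide) (by decide) k_9_32_22_32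
theorem k_9_32_23_32 : kexs bt 9 32 23 32 (exs (.B true 0)) = true := by decide +kernel
theorem n_9_32_23_32 : ∀ p ∈ leafBox 9 32 23 32, GoodAt p := leaf (.B true 0) (by decide) (by decide) k_9_32_23_32
theorem n_9_32_11_16 : ∀ p ∈ leafBox 9 32 11 16, GoodAt p := splitY rfl rfl rfl (by decide) n_9_32_22_32 n_9_32_23_32
theorem n_4_16_11_16 : ∀ p ∈ leafBox 4 16 11 16, GoodAt p := splitX rfl rfl rfl (by decide) n_8_32_11_16 n_9_32_11_16
theorem n_4_16_5_8 : ∀ p ∈ leafBox 4 16 5 8, GoodAt p := splitY rfl rfl rfl (by decide) n_4_16_10_16 n_4_16_11_16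

end H60Hg
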