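import Pool.Agent.H60.Hg.Good

/-! Certificate: leaves. -/

namespace H60Hg

theorem k_10_32_20_32 : kexs bt 10 32 20 32 (exs .A) = true := by decide +kernel
theorem n_10_32_20_32 : ∀ p ∈ leafBox 10 32 20 32, GoodAt p := leaf .A (by decide) (by decide) k_10_32_20_32
theorem k_10_32_21_32 : kexs bt 10 32 21 32 (exs (.B' true 128 77 0)) = true := by decide +kernel
theorem n_10_32_21_32 : ∀ p ∈ leafBox 10 32 21 32, GoodAt p := leaf (.B' true 128 77 0) (by decide) (by decide) k_10_32_21_32
theorem n_10_32_10_16 : ∀ p ∈ leafBox 10 32 10 16, GoodAt p := splitY rfl rfl rfl (by decide) n_10_32_20_32 n_10_32_21_32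

end H60Hg
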