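import Pool.Agent.H60.Hg.Good

/-! Certificate: leaves. -/

namespace H60Hg

theorem k_11_32_20_32 : kexs bt 11 32 20 32 (exs .A) = true := by decide +kernel
theorem n_11_32_20_32 : ∀ p ∈ leafBox 11 32 20 32, GoodAt p := leaf .A (by decide) (by decide) k_11_32_20_32
theorem k_22_64_42_64 : kexs bt 22 64 42 64 (exs .A) = true := by decide +kernel
theorem n_22_64_42_64 : ∀ p ∈ leafBox 22 64 42 64, GoodAt p := leaf .A (by decide) (by decide) k_22_64_42_64
theorem k_22_64_43_64 : kexs bt 22 64 43 64 (exs (.B' true 32 73 0)) = true := by decide +kernel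
theorem n_22_64_43_64 : ∀ p ∈ leafBox 22 64 43 64, GoodAt p := leaf (.B' true 32 73 0) (by decide) (by decide) k_22_64_43_64
theorem n_22_64_21_32 : ∀ p ∈ leafBox 22 64 21 32, GoodAt p := splitY rfl rfl rfl (by decide) n_22_64_42_64 n_22_64_43_64
theorem k_23_64_42_64 : kexs bt 23 64 42 64 (exs (.B' true 1 0 0)) = true := by decide +kernel
theorem n_23_64_42_64 : ∀ p ∈ leafBox 23 64 42 64, GoodAt p := leaf (.B' true 1 0 0) (by decide) (by decide) k_23_64_42_64
theorem k_23_64_43_64 : kexs bt 23 64 43 64 (exs (.B' true 32 98 0)) = true := by decide +kernel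
theorem n_23_64_43_64 : ∀ p ∈ leafBox 23 64 43 64, GoodAt p := leaf (.B' true 32 98 0) (by decide) (by decide) k_23_64_43_64
theorem n_23_64_21_32 : ∀ p ∈ leafBox 23 64 21 32, GoodAt p := splitY rfl rfl rfl (by decide) n_23_64_42_64 n_23_64_43_64
theorem n_11_32_21_32 : ∀ p ∈ leafBox 11 32 21 32, GoodAt p := splitX rfl rfl rfl (by decide) n_22_64_21_32 n_23_64_21_32
theorem n_11_32_10_16 : ∀ p ∈ leafBox 11 32 10 16, GoodAt p := splitY rfl rfl rfl (by decide) n_11_32_20_32 n_11_32_21_32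
theorem k_5_16_11_16 : kexs bt 5 16 11 16 (exs (.B' true 8 108 0)) = true := by decide +kernel
theorem n_5_16_11_16 : ∀ p ∈ leafBox 5 16 11 16, GoodAt p := leaf (.B' true 8 108 0) (by decide) (by decide) k_5_16_11_16

end H60Hg
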