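import Pool.Agent.H60.Hg.Good

/-! Certificate: leaves. -/

namespace H60Hg

theorem k_26_64_40_64 : kexs bt 26 64 40 64 (exs .A) = true := by decide +kernel
theorem n_26_64_40_64 : ∀ p ∈ leafBox 26 64 40 64, GoodAt p := leaf .A (by decide) (by decide) k_26_64_40_64
theorem k_26_64_41_64 : kexs bt 26 64 41 64 (exs (.B' true 512 97 0)) = true := by decide +kernel
theorem n_26_64_41_64 : ∀ p ∈ leafBox 26 64 41 64, GoodAt p := leaf (.B' true 512 97 0) (by decide) (by decide) k_26_64_41_64
theorem n_26_64_20_32 : ∀ p ∈ leafBox 26 64 20 32, GoodAt p := splitY rfl rfl rfl (by decide) n_26_64_40_64 n_26_64_41_64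
theorem k_27_64_40_64 : kexs bt 27 64 40 64 (exs (.B' true 1 0 0)) = true := by decide +kernel
theorem n_27_64_40_64 : ∀ p ∈ leafBox 27 64 40 64, GoodAt p := leaf (.B' true 1 0 0) (by decide) (by decide) k_27_64_40_64
theorem k_27_64_41_64 : kexs bt 27 64 41 64 (exs (.B' true 256 100 0)) = true := by decide +kernel
theorem n_27_64_41_64 : ∀ p ∈ leafBox 27 64 41 64, GoodAt p := leaf (.B' true 256 100 0) (by decide) (by decide) k_27_64_41_64
theorem n_27_64_20_32 : ∀ p ∈ leafBox 27 64 20 32, GoodAt p := splitY rfl rfl rfl (by decide) n_27_64_40_64 n_27_64_41_64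
theorem n_13_32_20_32 : ∀ p ∈ leafBox 13 32 20 32, GoodAt p := splitX rfl rfl rfl (by decide) n_26_64_20_32 n_27_64_20_32
theorem k_13_32_21_32 : kexs bt 13 32 21 32 (exs (.B true 0)) = true := by decide +kernel
theorem n_13_32_21_32 : ∀ p ∈ leafBox 13 32 21 32, GoodAt p := leaf (.B true 0) (by decide) (by decide) k_13_32_21_32
theorem n_13_32_10_16 : ∀ p ∈ leafBox 13 32 10 16, GoodAt p := splitY rfl rfl rfl (by decide) n_13_32_20_32 n_13_32_21_32
theorem k_6_16_11_16 : kexs bt 6 16 11 16 (exs (.B true 0)) = true := by decide +kernel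
theorem n_6_16_11_16 : ∀ p ∈ leafBox 6 16 11 16, GoodAt p := leaf (.B true 0) (by decide) (by decide) k_6_16_11_16

end H60Hg
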