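import Pool.Agent.H60.Hg.Good

/-! Certificate: leaves. -/

namespace H60Hg

theorem k_28_64_40_64 : kexs bt 28 64 40 64 (exs (.B' true 4096 81 0)) = true := by decide +kernel
theorem n_28_64_40_64 : ∀ p ∈ leafBox 28 64 40 64, GoodAt p := leaf (.B' true 4096 81 0) (by decide) (by decide) k_28_64_40_64
theorem k_28_64_41_64 : kexs bt 28 64 41 64 (exs (.B true 0)) = true := by decide +kernel
theorem n_28_64_41_64 : ∀ p ∈ leafBox 28 64 41 64, GoodAt p := leaf (.B true 0) (by decide) (by decide) k_28_64_41_64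
theorem n_28_64_20_32 : ∀ p ∈ leafBox 28 64 20 32, GoodAt p := splitY rfl rfl rfl (by decide) n_28_64_40_64 n_28_64_41_64
theorem k_29_64_20_32 : kexs bt 29 64 20 32 (exs (.B true 0)) = true := by decide +kernel
theorem n_29_64_20_32 : ∀ p ∈ leafBox 29 64 20 32, GoodAt p := leaf (.B true 0) (by decide) (by decide) k_29_64_20_32
theorem n_14_32_20_32 : ∀ p ∈ leafBox 14 32 20 32, GoodAt p := splitX rfl rfl rfl (by decide) n_28_64_20_32 n_29_64_20_32
theorem k_14_32_21_32 : kexs bt 14 32 21 32 (exs (.B true 0)) = true := by decide +kernel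
theorem n_14_32_21_32 : ∀ p ∈ leafBox 14 32 21 32, GoodAt p := leaf (.B true 0) (by decide) (by decide) k_14_32_21_32
theorem n_14_32_10_16 : ∀ p ∈ leafBox 14 32 10 16, GoodAt p := splitY rfl rfl rfl (by decide) n_14_32_20_32 n_14_32_21_32
theorem k_15_32_10_16 : kexs bt 15 32 10 16 (exs (.B true 0)) = true := by decide +kernel
theorem n_15_32_10_16 : ∀ p ∈ leafBox 15 32 10 16, GoodAt p := leaf (.B true 0) (by decide) (by decide) k_15_32_10_16
theorem n_7_16_10_16 : ∀ p ∈ leafBox 7 16 10 16, GoodAt p := splitX rfl rfl rfl (by decide) n_14_32_10_16 n_15_32_10_16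
theorem k_7_16_11_16 : kexs bt 7 16 11 16 (exs (.B true 0)) = true := by decide +kernel
theorem n_7_16_11_16 : ∀ p ∈ leafBox 7 16 11 16, GoodAt p := leaf (.B true 0) (by decide) (by decide) k_7_16_11_16
theorem n_7_16_5_8 : ∀ p ∈ leafBox 7 16 5 8, GoodAt p := splitY rfl rfl rfl (by decide) n_7_16_10_16 n_7_16_11_16

end H60Hg
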