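import Pool.Agent.H60.Hg.Good

/-! Certificate: leaves. -/

namespace H60Hg

theorem k_2_8_3_4 : kexs bt 2 8 3 4 (exs (.B true 0)) = true := by decide +kernel
theorem n_2_8_3_4 : ∀ p ∈ leafBox 2 8 3 4, GoodAt p := leaf (.B true 0) (by decide) (by decide) k_2_8_3_4
theorem k_3_8_3_4 : kexs bt 3 8 3 4 (exs (.B true 0)) = true := by decide +kernel
theorem n_3_8_3_4 : ∀ p ∈ leafBox 3 8 3 4, GoodAt p := leaf (.B true 0) (by decide) (by decide) k_3_8_3_4
theorem n_1_4_3_4 : ∀ p ∈ leafBox 1 4 3 4, GoodAt p := splitX rfl rfl rfl (by decide) n_2_8_3_4 n_3_8_3_4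

end H60Hg
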