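import Pool.Agent.H60.Hg.Good

/-! Certificate: leaves. -/

namespace H60Hg

theorem k_4_8_0_8 : kexs bt 4 8 0 8 (exs (.B true 0)) = true := by decide +kernel
theorem n_4_8_0_8 : ∀ p ∈ leafBox 4 8 0 8, GoodAt p := leaf (.B true 0) (by decide) (by decide) k_4_8_0_8
theorem k_8_16_2_16 : kexs bt 8 16 2 16 (exs (.B true 0)) = true := by decide +kernel
theorem n_8_16_2_16 : ∀ p ∈ leafBox 8 16 2 16, GoodAt p := leaf (.B true 0) (by decide) (by decide) k_8_16_2_16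
theorem k_16_32_3_16 : kexs bt 16 32 3 16 (exs (.B' true 1 0 4307874)) = true := by decide +kernel
theorem n_16_32_3_16 : ∀ p ∈ leafBox 16 32 3 16, GoodAt p := leaf (.B' true 1 0 4307874) (by decide) (by decide) k_16_32_3_16
theorem k_17_32_3_16 : kexs bt 17 32 3 16 (exs (.B' true 1 0 686505)) = true := by decide +kernel
theorem n_17_32_3_16 : ∀ p ∈ leafBox 17 32 3 16, GoodAt p := leaf (.B' true 1 0 686505) (by decide) (by decide) k_17_32_3_16
theorem n_8_16_3_16 : ∀ p ∈ leafBox 8 16 3 16, GoodAt p := splitX rfl rfl rfl (by decide) n_16_32_3_16 n_17_32_3_16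
theorem n_8_16_1_8 : ∀ p ∈ leafBox 8 16 1 8, GoodAt p := splitY rfl rfl rfl (by decide) n_8_16_2_16 n_8_16_3_16
theorem k_9_16_1_8 : kexs bt 9 16 1 8 (exs (.B true 0)) = true := by decide +kernel
theorem n_9_16_1_8 : ∀ p ∈ leafBox 9 16 1 8, GoodAt p := leaf (.B true 0) (by decide) (by decide) k_9_16_1_8
theorem n_4_8_1_8 : ∀ p ∈ leafBox 4 8 1 8, GoodAt p := splitX rfl rfl rfl (by decide) n_8_16_1_8 n_9_16_1_8
theorem n_4_8_0_4 : ∀ p ∈ leafBox 4 8 0 4, GoodAt p := splitY rfl rfl rfl (by decide) n_4_8_0_8 n_4_8_1_8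
theorem k_5_8_0_4 : kexs bt 5 8 0 4 (exs (.B true 0)) = true := by decide +kernel
theorem n_5_8_0_4 : ∀ p ∈ leafBox 5 8 0 4, GoodAt p := leaf (.B true 0) (by decide) (by decide) k_5_8_0_4
theorem n_2_4_0_4 : ∀ p ∈ leafBox 2 4 0 4, GoodAt p := splitX rfl rfl rfl (by decide) n_4_8_0_4 n_5_8_0_4

end H60Hg
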