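import Pool.Agent.H60.Hg.Good

/-! Certificate: leaves. -/

namespace H60Hg

theorem k_16_32_4_16 : kexs bt 16 32 4 16 (exs .A) = true := by decide +kernel
theorem n_16_32_4_16 : ∀ p ∈ leafBox 16 32 4 16, GoodAt p := leaf .A (by decide) (by decide) k_16_32_4_16
theorem k_17_32_4_16 : kexs bt 17 32 4 16 (exs (.B' true 1 0 1231496)) = true := by decide +kernel
theorem n_17_32_4_16 : ∀ p ∈ leafBox 17 32 4 16, GoodAt p := leaf (.B' true 1 0 1231496) (by decide) (by decide) k_17_32_4_16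
theorem n_8_16_4_16 : ∀ p ∈ leafBox 8 16 4 16, GoodAt p := splitX rfl rfl rfl (by decide) n_16_32_4_16 n_17_32_4_16
theorem k_8_16_5_16 : kexs bt 8 16 5 16 (exs .A) = true := by decide +kernel
theorem n_8_16_5_16 : ∀ p ∈ leafBox 8 16 5 16, GoodAt p := leaf .A (by decide) (by decide) k_8_16_5_16
theorem n_8_16_2_8 : ∀ p ∈ leafBox 8 16 2 8, GoodAt p := splitY rfl rfl rfl (by decide) n_8_16_4_16 n_8_16_5_16
theorem k_18_32_4_16 : kexs bt 18 32 4 16 (exs (.B' true 1 0 241524)) = true := by decide +kernel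
theorem n_18_32_4_16 : ∀ p ∈ leafBox 18 32 4 16, GoodAt p := leaf (.B' true 1 0 241524) (by decide) (by decide) k_18_32_4_16
theorem k_19_32_4_16 : kexs bt 19 32 4 16 (exs (.B' true 1 0 0)) = true := by decide +kernel
theorem n_19_32_4_16 : ∀ p ∈ leafBox 19 32 4 16, GoodAt p := leaf (.B' true 1 0 0) (by decide) (by decide) k_19_32_4_16
theorem n_9_16_4_16 : ∀ p ∈ leafBox 9 16 4 16, GoodAt p := splitX rfl rfl rfl (by decide) n_18_32_4_16 n_19_32_4_16
theorem k_9_16_5_16 : kexs bt 9 16 5 16 (exs (.B' true 1 0 194246)) = true := by decide +kernel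
theorem n_9_16_5_16 : ∀ p ∈ leafBox 9 16 5 16, GoodAt p := leaf (.B' true 1 0 194246) (by decide) (by decide) k_9_16_5_16
theorem n_9_16_2_8 : ∀ p ∈ leafBox 9 16 2 8, GoodAt p := splitY rfl rfl rfl (by decide) n_9_16_4_16 n_9_16_5_16
theorem n_4_8_2_8 : ∀ p ∈ leafBox 4 8 2 8, GoodAt p := splitX rfl rfl rfl (by decide) n_8_16_2_8 n_9_16_2_8

end H60Hg
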