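import Pool.Agent.H60.Hg.Good

/-! Certificate: leaves. -/

namespace H60Hg

theorem k_8_16_3_8 : kexs bt 8 16 3 8 (exs .A) = true := by decide +kernel
theorem n_8_16_3_8 : ∀ p ∈ leafBox 8 16 3 8, GoodAt p := leaf .A (by decide) (by decide) k_8_16_3_8
theorem k_9_16_6_16 : kexs bt 9 16 6 16 (exs .A) = true := by decide +kernel
theorem n_9_16_6_16 : ∀ p ∈ leafBox 9 16 6 16, GoodAt p := leaf .A (by decide) (by decide) k_9_16_6_16
theorem k_9_16_7_16 : kexs bt 9 16 7 16 (exs (.B' true 1024 102 0)) = true := by decide +kernel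
theorem n_9_16_7_16 : ∀ p ∈ leafBox 9 16 7 16, GoodAt p := leaf (.B' true 1024 102 0) (by decide) (by decide) k_9_16_7_16
theorem n_9_16_3_8 : ∀ p ∈ leafBox 9 16 3 8, GoodAt p := splitY rfl rfl rfl (by decide) n_9_16_6_16 n_9_16_7_16
theorem n_4_8_3_8 : ∀ p ∈ leafBox 4 8 3 8, GoodAt p := splitX rfl rfl rfl (by decide) n_8_16_3_8 n_9_16_3_8
theorem k_5_8_2_8 : kexs bt 5 8 2 8 (exs (.B' true 1 0 0)) = true := by decide +kernel
theorem n_5_8_2_8 : ∀ p ∈ leafBox 5 8 2 8, GoodAt p := leaf (.B' true 1 0 0) (by decide) (by decide) k_5_8_2_8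

end H60Hg
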