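import Pool.Agent.H60.Hg.Good

/-! Certificate: leaves. -/

namespace H60Hg

theorem k_10_16_6_16 : kexs bt 10 16 6 16 (exs (.B' true 1 0 0)) = true := by decide +kernel
theorem n_10_16_6_16 : ∀ p ∈ leafBox 10 16 6 16, GoodAt p := leaf (.B' true 1 0 0) (by decide) (by decide) k_10_16_6_16
theorem k_20_32_7_16 : kexs bt 20 32 7 16 (exs (.B' true 256 101 0)) = true := by decide +kernel
theorem n_20_32_7_16 : ∀ p ∈ leafBox 20 32 7 16, GoodAt p := leaf (.B' true 256 101 0) (by decide) (by decide) k_20_32_7_16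
theorem k_21_32_7_16 : kexs bt 21 32 7 16 (exs (.B true 0)) = true := by decide +kernel
theorem n_21_32_7_16 : ∀ p ∈ leafBox 21 32 7 16, GoodAt p := leaf (.B true 0) (by decide) (by decide) k_21_32_7_16
theorem n_10_16_7_16 : ∀ p ∈ leafBox 10 16 7 16, GoodAt p := splitX rfl rfl rfl (by decide) n_20_32_7_16 n_21_32_7_16
theorem n_10_16_3_8 : ∀ p ∈ leafBox 10 16 3 8, GoodAt p := splitY rfl rfl rfl (by decide) n_10_16_6_16 n_10_16_7_16
theorem k_11_16_6_16 : kexs bt 11 16 6 16 (exs (.B true 0)) = true := by decide +kernel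
theorem n_11_16_6_16 : ∀ p ∈ leafBox 11 16 6 16, GoodAt p := leaf (.B true 0) (by decide) (by decide) k_11_16_6_16
theorem k_22_32_7_16 : kexs bt 22 32 7 16 (exs (.B true 0)) = true := by decide +kernel
theorem n_22_32_7_16 : ∀ p ∈ leafBox 22 32 7 16, GoodAt p := leaf (.B true 0) (by decide) (by decide) k_22_32_7_16
theorem k_23_32_7_16 : kexs bt 23 32 7 16 (exs (.B true 0)) = true := by decide +kernel
theorem n_23_32_7_16 : ∀ p ∈ leafBox 23 32 7 16, GoodAt p := leaf (.B true 0) (by decide) (by decide) k_23_32_7_16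
theorem n_11_16_7_16 : ∀ p ∈ leafBox 11 16 7 16, GoodAt p := splitX rfl rfl rfl (by decide) n_22_32_7_16 n_23_32_7_16
theorem n_11_16_3_8 : ∀ p ∈ leafBox 11 16 3 8, GoodAt p := splitY rfl rfl rfl (by decide) n_11_16_6_16 n_11_16_7_16
theorem n_5_8_3_8 : ∀ p ∈ leafBox 5 8 3 8, GoodAt p := splitX rfl rfl rfl (by decide) n_10_16_3_8 n_11_16_3_8

end H60Hg
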