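import Pool.Agent.H60.Hg.Good

/-! Certificate: leaves. -/

namespace H60Hg

theorem k_16_32_8_16 : kexs bt 16 32 8 16 (exs (.B' true 1 0 0)) = true := by decide +kernel
theorem n_16_32_8_16 : ∀ p ∈ leafBox 16 32 8 16, GoodAt p := leaf (.B' true 1 0 0) (by decide) (by decide) k_16_32_8_16
theorem k_17_32_8_16 : kexs bt 17 32 8 16 (exs (.B' true 1024 86 0)) = true := by decide +kernel
theorem n_17_32_8_16 : ∀ p ∈ leafBox 17 32 8 16, GoodAt p := leaf (.B' true 1024 86 0) (by decide) (by decide) k_17_32_8_16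
theorem n_8_16_8_16 : ∀ p ∈ leafBox 8 16 8 16, GoodAt p := splitX rfl rfl rfl (by decide) n_16_32_8_16 n_17_32_8_16
theorem k_32_64_18_32 : kexs bt 32 64 18 32 (exs (.B' true 4096 100 0)) = true := by decide +kernel
theorem n_32_64_18_32 : ∀ p ∈ leafBox 32 64 18 32, GoodAt p := leaf (.B' true 4096 100 0) (by decide) (by decide) k_32_64_18_32
theorem k_33_64_18_32 : kexs bt 33 64 18 32 (exs (.B true 0)) = true := by decide +kernel
theorem n_33_64_18_32 : ∀ p ∈ leafBox 33 64 18 32, GoodAt p := leaf (.B true 0) (by decide) (by decide) k_33_64_18_32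
theorem n_16_32_18_32 : ∀ p ∈ leafBox 16 32 18 32, GoodAt p := splitX rfl rfl rfl (by decide) n_32_64_18_32 n_33_64_18_32
theorem k_16_32_19_32 : kexs bt 16 32 19 32 (exs (.B true 0)) = true := by decide +kernel
theorem n_16_32_19_32 : ∀ p ∈ leafBox 16 32 19 32, GoodAt p := leaf (.B true 0) (by decide) (by decide) k_16_32_19_32
theorem n_16_32_9_16 : ∀ p ∈ leafBox 16 32 9 16, GoodAt p := splitY rfl rfl rfl (by decide) n_16_32_18_32 n_16_32_19_32
theorem k_17_32_9_16 : kexs bt 17 32 9 16 (exs (.B true 0)) = true := by decide +kernel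
theorem n_17_32_9_16 : ∀ p ∈ leafBox 17 32 9 16, GoodAt p := leaf (.B true 0) (by decide) (by decide) k_17_32_9_16
theorem n_8_16_9_16 : ∀ p ∈ leafBox 8 16 9 16, GoodAt p := splitX rfl rfl rfl (by decide) n_16_32_9_16 n_17_32_9_16
theorem n_8_16_4_8 : ∀ p ∈ leafBox 8 16 4 8, GoodAt p := splitY rfl rfl rfl (by decide) n_8_16_8_16 n_8_16_9_16

end H60Hg
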