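import Pool.Agent.H60.Hg.Good

/-! Certificate: leaves. -/

namespace H60Hg

theorem k_9_16_8_16 : kexs bt 9 16 8 16 (exs (.B' true 512 87 0)) = true := by decide +kernel
theorem n_9_16_8_16 : ∀ p ∈ leafBox 9 16 8 16, GoodAt p := leaf (.B' true 512 87 0) (by decide) (by decide) k_9_16_8_16
theorem k_9_16_9_16 : kexs bt 9 16 9 16 (exs (.B true 0)) = true := by decide +kernel
theorem n_9_16_9_16 : ∀ p ∈ leafBox 9 16 9 16, GoodAt p := leaf (.B true 0) (by decide) (by decide) k_9_16_9_16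
theorem n_9_16_4_8 : ∀ p ∈ leafBox 9 16 4 8, GoodAt p := splitY rfl rfl rfl (by decide) n_9_16_8_16 n_9_16_9_16
theorem k_4_8_5_8 : kexs bt 4 8 5 8 (exs (.B true 0)) = true := by decide +kernel
theorem n_4_8_5_8 : ∀ p ∈ leafBox 4 8 5 8, GoodAt p := leaf (.B true 0) (by decide) (by decide) k_4_8_5_8

end H60Hg
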