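import Pool.Agent.H60.Hg.Good

/-! Certificate: leaves. -/

namespace H60Hg

theorem k_10_16_4_8 : kexs bt 10 16 4 8 (exs (.B true 0)) = true := by decide +kernel
theorem n_10_16_4_8 : ∀ p ∈ leafBox 10 16 4 8, GoodAt p := leaf (.B true 0) (by decide) (by decide) k_10_16_4_8
theorem k_22_32_8_16 : kexs bt 22 32 8 16 (exs (.B true 0)) = true := by decide +kernel
theorem n_22_32_8_16 : ∀ p ∈ leafBox 22 32 8 16, GoodAt p := leaf (.B true 0) (by decide) (by decide) k_22_32_8_16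
theorem k_23_32_16_32 : kexs bt 23 32 16 32 (exs (.B true 0)) = true := by decide +kernel
theorem n_23_32_16_32 : ∀ p ∈ leafBox 23 32 16 32, GoodAt p := leaf (.B true 0) (by decide) (by decide) k_23_32_16_32
theorem k_23_32_17_32 : kexs bt 23 32 17 32 (exs (.B true 0)) = true := by decide +kernel
theorem n_23_32_17_32 : ∀ p ∈ leafBox 23 32 17 32, GoodAt p := leaf (.B true 0) (by decide) (by decide) k_23_32_17_32
theorem n_23_32_8_16 : ∀ p ∈ leafBox 23 32 8 16, GoodAt p := splitY rfl rfl rfl (by decide) n_23_32_16_32 n_23_32_17_32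
theorem n_11_16_8_16 : ∀ p ∈ leafBox 11 16 8 16, GoodAt p := splitX rfl rfl rfl (by decide) n_22_32_8_16 n_23_32_8_16
theorem k_11_16_9_16 : kexs bt 11 16 9 16 (exs (.B true 0)) = true := by decide +kernel
theorem n_11_16_9_16 : ∀ p ∈ leafBox 11 16 9 16, GoodAt p := leaf (.B true 0) (by decide) (by decide) k_11_16_9_16
theorem n_11_16_4_8 : ∀ p ∈ leafBox 11 16 4 8, GoodAt p := splitY rfl rfl rfl (by decide) n_11_16_8_16 n_11_16_9_16
theorem n_5_8_4_8 : ∀ p ∈ leafBox 5 8 4 8, GoodAt p := splitX rfl rfl rfl (by decide) n_10_16_4_8 n_11_16_4_8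
theorem k_5_8_5_8 : kexs bt 5 8 5 8 (exs (.B true 0)) = true := by decide +kernel
theorem n_5_8_5_8 : ∀ p ∈ leafBox 5 8 5 8, GoodAt p := leaf (.B true 0) (by decide) (by decide) k_5_8_5_8
theorem n_5_8_2_4 : ∀ p ∈ leafBox 5 8 2 4, GoodAt p := splitY rfl rfl rfl (by decide) n_5_8_4_8 n_5_8_5_8

end H60Hg
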