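import Pool.Agent.H60.Hg.Good

/-! Certificate: leaves. -/

namespace H60Hg

theorem k_2_4_3_4 : kexs bt 2 4 3 4 (exs (.B true 0)) = true := by decide +kernel
theorem n_2_4_3_4 : ∀ p ∈ leafBox 2 4 3 4, GoodAt p := leaf (.B true 0) (by decide) (by decide) k_2_4_3_4
theorem k_6_8_0_8 : kexs bt 6 8 0 8 (exs (.B true 0)) = true := by decide +kernel
theorem n_6_8_0_8 : ∀ p ∈ leafBox 6 8 0 8, GoodAt p := leaf (.B true 0) (by decide) (by decide) k_6_8_0_8
theorem k_6_8_1_8 : kexs bt 6 8 1 8 (exs (.B true 0)) = true := by decide +kernel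
theorem n_6_8_1_8 : ∀ p ∈ leafBox 6 8 1 8, GoodAt p := leaf (.B true 0) (by decide) (by decide) k_6_8_1_8
theorem n_6_8_0_4 : ∀ p ∈ leafBox 6 8 0 4, GoodAt p := splitY rfl rfl rfl (by decide) n_6_8_0_8 n_6_8_1_8

end H60Hg
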