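import Pool.Agent.H60.Hg.Good

/-! Certificate: leaves. -/

namespace H60Hg

theorem k_7_8_0_8 : kexs bt 7 8 0 8 (exs (.B true 0)) = true := by decide +kernel
theorem n_7_8_0_8 : ∀ p ∈ leafBox 7 8 0 8, GoodAt p := leaf (.B true 0) (by decide) (by decide) k_7_8_0_8
theorem k_14_16_2_16 : kexs bt 14 16 2 16 (exs (.B true 0)) = true := by decide +kernel
theorem n_14_16_2_16 : ∀ p ∈ leafBox 14 16 2 16, GoodAt p := leaf (.B true 0) (by decide) (by decide) k_14_16_2_16
theorem k_14_16_3_16 : kexs bt 14 16 3 16 (exs (.B true 0)) = true := by decide +kernel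
theorem n_14_16_3_16 : ∀ p ∈ leafBox 14 16 3 16, GoodAt p := leaf (.B true 0) (by decide) (by decide) k_14_16_3_16
theorem n_14_16_1_8 : ∀ p ∈ leafBox 14 16 1 8, GoodAt p := splitY rfl rfl rfl (by decide) n_14_16_2_16 n_14_16_3_16
theorem k_15_16_2_16 : kexs bt 15 16 2 16 (exs (.CQ true true)) = true := by decide +kernel
theorem n_15_16_2_16 : ∀ p ∈ leafBox 15 16 2 16, GoodAt p := leaf (.CQ true true) (by decide) (by decide) k_15_16_2_16
theorem k_15_16_3_16 : kexs bt 15 16 3 16 (exs (.B true 0)) = true := by decide +kernel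
theorem n_15_16_3_16 : ∀ p ∈ leafBox 15 16 3 16, GoodAt p := leaf (.B true 0) (by decide) (by decide) k_15_16_3_16
theorem n_15_16_1_8 : ∀ p ∈ leafBox 15 16 1 8, GoodAt p := splitY rfl rfl rfl (by decide) n_15_16_2_16 n_15_16_3_16
theorem n_7_8_1_8 : ∀ p ∈ leafBox 7 8 1 8, GoodAt p := splitX rfl rfl rfl (by decide) n_14_16_1_8 n_15_16_1_8
theorem n_7_8_0_4 : ∀ p ∈ leafBox 7 8 0 4, GoodAt p := splitY rfl rfl rfl (by decide) n_7_8_0_8 n_7_8_1_8

end H60Hg
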