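import Pool.Agent.H60.Hg.Good

/-! Certificate: leaves. -/

namespace H60Hg

theorem k_48_64_17_32 : kexs bt 48 64 17 32 (exs (.B true 0)) = true := by decide +kernel
theorem n_48_64_17_32 : ∀ p ∈ leafBox 48 64 17 32, GoodAt p := leaf (.B true 0) (by decide) (by decide) k_48_64_17_32
theorem k_98_128_34_64 : kexs bt 98 128 34 64 (exs (.B true 0)) = true := by decide +kernel
theorem n_98_128_34_64 : ∀ p ∈ leafBox 98 128 34 64, GoodAt p := leaf (.B true 0) (by decide) (by decide) k_98_128_34_64
theorem k_99_128_34_64 : kexs bt 99 128 34 64 (exs (.B true 0)) = true := by decide +kernel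
theorem n_99_128_34_64 : ∀ p ∈ leafBox 99 128 34 64, GoodAt p := leaf (.B true 0) (by decide) (by decide) k_99_128_34_64
theorem n_49_64_34_64 : ∀ p ∈ leafBox 49 64 34 64, GoodAt p := splitX rfl rfl rfl (by decide) n_98_128_34_64 n_99_128_34_64
theorem k_49_64_35_64 : kexs bt 49 64 35 64 (exs (.B true 0)) = true := by decide +kernel
theorem n_49_64_35_64 : ∀ p ∈ leafBox 49 64 35 64, GoodAt p := leaf (.B true 0) (by decide) (by decide) k_49_64_35_64
theorem n_49_64_17_32 : ∀ p ∈ leafBox 49 64 17 32, GoodAt p := splitY rfl rfl rfl (by decide) n_49_64_34_64 n_49_64_35_64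
theorem n_24_32_17_32 : ∀ p ∈ leafBox 24 32 17 32, GoodAt p := splitX rfl rfl rfl (by decide) n_48_64_17_32 n_49_64_17_32
theorem k_25_32_16_32 : kexs bt 25 32 16 32 (exs (.B true 0)) = true := by decide +kernel
theorem n_25_32_16_32 : ∀ p ∈ leafBox 25 32 16 32, GoodAt p := leaf (.B true 0) (by decide) (by decide) k_25_32_16_32

end H60Hg
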