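import Pool.Agent.H60.Hg.Good

/-! Certificate: leaves. -/

namespace H60Hg

theorem k_50_64_34_64 : kexs bt 50 64 34 64 (exs (.CG true (6) (6))) = true := by decide +kernel
theorem n_50_64_34_64 : ∀ p ∈ leafBox 50 64 34 64, GoodAt p := leaf (.CG true (6) (6)) (by decide) (by decide) k_50_64_34_64
theorem k_100_128_35_64 : kexs bt 100 128 35 64 (exs (.B true 0)) = true := by decide +kernel
theorem n_100_128_35_64 : ∀ p ∈ leafBox 100 128 35 64, GoodAt p := leaf (.B true 0) (by decide) (by decide) k_100_128_35_64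
theorem k_101_128_70_128 : kexs bt 101 128 70 128 (exs (.B true 0)) = true := by decide +kernel
theorem n_101_128_70_128 : ∀ p ∈ leafBox 101 128 70 128, GoodAt p := leaf (.B true 0) (by decide) (by decide) k_101_128_70_128
theorem k_101_128_71_128 : kexs bt 101 128 71 128 (exs (.B true 0)) = true := by decide +kernel
theorem n_101_128_71_128 : ∀ p ∈ leafBox 101 128 71 128, GoodAt p := leaf (.B true 0) (by decide) (by decide) k_101_128_71_128
theorem n_101_128_35_64 : ∀ p ∈ leafBox 101 128 35 64, GoodAt p := splitY rfl rfl rfl (by decide) n_101_128_70_128 n_101_128_71_128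
theorem n_50_64_35_64 : ∀ p ∈ leafBox 50 64 35 64, GoodAt p := splitX rfl rfl rfl (by decide) n_100_128_35_64 n_101_128_35_64
theorem n_50_64_17_32 : ∀ p ∈ leafBox 50 64 17 32, GoodAt p := splitY rfl rfl rfl (by decide) n_50_64_34_64 n_50_64_35_64
theorem k_51_64_34_64 : kexs bt 51 64 34 64 (exs (.B true 0)) = true := by decide +kernel
theorem n_51_64_34_64 : ∀ p ∈ leafBox 51 64 34 64, GoodAt p := leaf (.B true 0) (by decide) (by decide) k_51_64_34_64
theorem k_51_64_35_64 : kexs bt 51 64 35 64 (exs (.CG true (6) (6))) = true := by decide +kernel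
theorem n_51_64_35_64 : ∀ p ∈ leafBox 51 64 35 64, GoodAt p := leaf (.CG true (6) (6)) (by decide) (by decide) k_51_64_35_64
theorem n_51_64_17_32 : ∀ p ∈ leafBox 51 64 17 32, GoodAt p := splitY rfl rfl rfl (by decide) n_51_64_34_64 n_51_64_35_64
theorem n_25_32_17_32 : ∀ p ∈ leafBox 25 32 17 32, GoodAt p := splitX rfl rfl rfl (by decide) n_50_64_17_32 n_51_64_17_32

end H60Hg
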