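import Pool.Agent.H60.Hg.Good

/-! Certificate: leaves. -/

namespace H60Hg

theorem k_24_32_9_16 : kexs bt 24 32 9 16 (exs (.B true 0)) = true := by decide +kernel
theorem n_24_32_9_16 : ∀ p ∈ leafBox 24 32 9 16, GoodAt p := leaf (.B true 0) (by decide) (by decide) k_24_32_9_16

end H60Hg
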