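import Pool.Agent.H60.Hg.Good

/-! Certificate: leaves. -/

namespace H60Hg

theorem k_50_64_18_32 : kexs bt 50 64 18 32 (exs (.B true 0)) = true := by decide +kernel
theorem n_50_64_18_32 : ∀ p ∈ leafBox 50 64 18 32, GoodAt p := leaf (.B true 0) (by decide) (by decide) k_50_64_18_32
theorem k_204_256_72_128 : kexs bt 204 256 72 128 (exs (.B true 0)) = true := by decide +kernel
theorem n_204_256_72_128 : ∀ p ∈ leafBox 204 256 72 128, GoodAt p := leaf (.B true 0) (by decide) (by decide) k_204_256_72_128
theorem k_205_256_72_128 : kexs bt 205 256 72 128 (exs (.CQ true false)) = true := by decide +kernel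
theorem n_205_256_72_128 : ∀ p ∈ leafBox 205 256 72 128, GoodAt p := leaf (.CQ true false) (by decide) (by decide) k_205_256_72_128
theorem n_102_128_72_128 : ∀ p ∈ leafBox 102 128 72 128, GoodAt p := splitX rfl rfl rfl (by decide) n_204_256_72_128 n_205_256_72_128
theorem k_102_128_73_128 : kexs bt 102 128 73 128 (exs (.B true 0)) = true := by decide +kernel
theorem n_102_128_73_128 : ∀ p ∈ leafBox 102 128 73 128, GoodAt p := leaf (.B true 0) (by decide) (by decide) k_102_128_73_128
theorem n_102_128_36_64 : ∀ p ∈ leafBox 102 128 36 64, GoodAt p := splitY rfl rfl rfl (by decide) n_102_128_72_128 n_102_128_73_128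
theorem k_103_128_36_64 : kexs bt 103 128 36 64 (exs (.CQ true false)) = true := by decide +kernel
theorem n_103_128_36_64 : ∀ p ∈ leafBox 103 128 36 64, GoodAt p := leaf (.CQ true false) (by decide) (by decide) k_103_128_36_64
theorem n_51_64_36_64 : ∀ p ∈ leafBox 51 64 36 64, GoodAt p := splitX rfl rfl rfl (by decide) n_102_128_36_64 n_103_128_36_64
theorem k_51_64_37_64 : kexs bt 51 64 37 64 (exs (.B true 0)) = true := by decide +kernel
theorem n_51_64_37_64 : ∀ p ∈ leafBox 51 64 37 64, GoodAt p := leaf (.B true 0) (by decide) (by decide) k_51_64_37_64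
theorem n_51_64_18_32 : ∀ p ∈ leafBox 51 64 18 32, GoodAt p := splitY rfl rfl rfl (by decide) n_51_64_36_64 n_51_64_37_64
theorem n_25_32_18_32 : ∀ p ∈ leafBox 25 32 18 32, GoodAt p := splitX rfl rfl rfl (by decide) n_50_64_18_32 n_51_64_18_32

end H60Hg
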