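import Pool.Agent.H60.Hg.Good

/-! Certificate: leaves. -/

namespace H60Hg

theorem k_25_32_19_32 : kexs bt 25 32 19 32 (exs (.B true 0)) = true := by decide +kernel
theorem n_25_32_19_32 : ∀ p ∈ leafBox 25 32 19 32, GoodAt p := leaf (.B true 0) (by decide) (by decide) k_25_32_19_32
theorem k_13_16_8_16 : kexs bt 13 16 8 16 (exs (.B true 0)) = true := by decide +kernel
theorem n_13_16_8_16 : ∀ p ∈ leafBox 13 16 8 16, GoodAt p := leaf (.B true 0) (by decide) (by decide) k_13_16_8_16

end H60Hg
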