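import Pool.Agent.H60.Hg.Good

/-! Certificate: leaves. -/

namespace H60Hg

theorem k_52_64_36_64 : kexs bt 52 64 36 64 (exs (.CQ true false)) = true := by decide +kernel
theorem n_52_64_36_64 : ∀ p ∈ leafBox 52 64 36 64, GoodAt p := leaf (.CQ true false) (by decide) (by decide) k_52_64_36_64
theorem k_104_128_74_128 : kexs bt 104 128 74 128 (exs (.B true 0)) = true := by decide +kernel
theorem n_104_128_74_128 : ∀ p ∈ leafBox 104 128 74 128, GoodAt p := leaf (.B true 0) (by decide) (by decide) k_104_128_74_128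
theorem k_104_128_75_128 : kexs bt 104 128 75 128 (exs (.B true 0)) = true := by decide +kernel
theorem n_104_128_75_128 : ∀ p ∈ leafBox 104 128 75 128, GoodAt p := leaf (.B true 0) (by decide) (by decide) k_104_128_75_128
theorem n_104_128_37_64 : ∀ p ∈ leafBox 104 128 37 64, GoodAt p := splitY rfl rfl rfl (by decide) n_104_128_74_128 n_104_128_75_128
theorem k_105_128_37_64 : kexs bt 105 128 37 64 (exs (.B true 0)) = true := by decide +kernel
theorem n_105_128_37_64 : ∀ p ∈ leafBox 105 128 37 64, GoodAt p := leaf (.B true 0) (by decide) (by decide) k_105_128_37_64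
theorem n_52_64_37_64 : ∀ p ∈ leafBox 52 64 37 64, GoodAt p := splitX rfl rfl rfl (by decide) n_104_128_37_64 n_105_128_37_64
theorem n_52_64_18_32 : ∀ p ∈ leafBox 52 64 18 32, GoodAt p := splitY rfl rfl rfl (by decide) n_52_64_36_64 n_52_64_37_64
theorem k_53_64_18_32 : kexs bt 53 64 18 32 (exs (.B true 0)) = true := by decide +kernel
theorem n_53_64_18_32 : ∀ p ∈ leafBox 53 64 18 32, GoodAt p := leaf (.B true 0) (by decide) (by decide) k_53_64_18_32
theorem n_26_32_18_32 : ∀ p ∈ leafBox 26 32 18 32, GoodAt p := splitX rfl rfl rfl (by decide) n_52_64_18_32 n_53_64_18_32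

end H60Hg
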