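import Pool.Agent.H60.Hg.Good

/-! Certificate: leaves. -/

namespace H60Hg

theorem k_52_64_19_32 : kexs bt 52 64 19 32 (exs (.B true 0)) = true := by decide +kernel
theorem n_52_64_19_32 : ∀ p ∈ leafBox 52 64 19 32, GoodAt p := leaf (.B true 0) (by decide) (by decide) k_52_64_19_32
theorem k_53_64_19_32 : kexs bt 53 64 19 32 (exs (.B true 0)) = true := by decide +kernel
theorem n_53_64_19_32 : ∀ p ∈ leafBox 53 64 19 32, GoodAt p := leaf (.B true 0) (by decide) (by decide) k_53_64_19_32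
theorem n_26_32_19_32 : ∀ p ∈ leafBox 26 32 19 32, GoodAt p := splitX rfl rfl rfl (by decide) n_52_64_19_32 n_53_64_19_32
theorem k_27_32_9_16 : kexs bt 27 32 9 16 (exs (.B true 0)) = true := by decide +kernel
theorem n_27_32_9_16 : ∀ p ∈ leafBox 27 32 9 16, GoodAt p := leaf (.B true 0) (by decide) (by decide) k_27_32_9_16
theorem k_12_16_5_8 : kexs bt 12 16 5 8 (exs (.B true 0)) = true := by decide +kernel
theorem n_12_16_5_8 : ∀ p ∈ leafBox 12 16 5 8, GoodAt p := leaf (.B true 0) (by decide) (by decide) k_12_16_5_8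
theorem k_13_16_5_8 : kexs bt 13 16 5 8 (exs (.B true 0)) = true := by decide +kernel
theorem n_13_16_5_8 : ∀ p ∈ leafBox 13 16 5 8, GoodAt p := leaf (.B true 0) (by decide) (by decide) k_13_16_5_8
theorem n_6_8_5_8 : ∀ p ∈ leafBox 6 8 5 8, GoodAt p := splitX rfl rfl rfl (by decide) n_12_16_5_8 n_13_16_5_8

end H60Hg
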