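import Pool.Agent.H60.Hg.Good

/-! Certificate: leaves. -/

namespace H60Hg

theorem k_7_8_4_8 : kexs bt 7 8 4 8 (exs (.B true 0)) = true := by decide +kernel
theorem n_7_8_4_8 : ∀ p ∈ leafBox 7 8 4 8, GoodAt p := leaf (.B true 0) (by decide) (by decide) k_7_8_4_8
theorem k_14_16_10_16 : kexs bt 14 16 10 16 (exs (.B true 0)) = true := by decide +kernel
theorem n_14_16_10_16 : ∀ p ∈ leafBox 14 16 10 16, GoodAt p := leaf (.B true 0) (by decide) (by decide) k_14_16_10_16
theorem k_28_32_11_16 : kexs bt 28 32 11 16 (exs (.B true 0)) = true := by decide +kernel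
theorem n_28_32_11_16 : ∀ p ∈ leafBox 28 32 11 16, GoodAt p := leaf (.B true 0) (by decide) (by decide) k_28_32_11_16
theorem k_29_32_22_32 : kexs bt 29 32 22 32 (exs (.B true 0)) = true := by decide +kernel
theorem n_29_32_22_32 : ∀ p ∈ leafBox 29 32 22 32, GoodAt p := leaf (.B true 0) (by decide) (by decide) k_29_32_22_32
theorem k_29_32_23_32 : kexs bt 29 32 23 32 (exs (.CQ true true)) = true := by decide +kernel
theorem n_29_32_23_32 : ∀ p ∈ leafBox 29 32 23 32, GoodAt p := leaf (.CQ true true) (by decide) (by decide) k_29_32_23_32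
theorem n_29_32_11_16 : ∀ p ∈ leafBox 29 32 11 16, GoodAt p := splitY rfl rfl rfl (by decide) n_29_32_22_32 n_29_32_23_32
theorem n_14_16_11_16 : ∀ p ∈ leafBox 14 16 11 16, GoodAt p := splitX rfl rfl rfl (by decide) n_28_32_11_16 n_29_32_11_16
theorem n_14_16_5_8 : ∀ p ∈ leafBox 14 16 5 8, GoodAt p := splitY rfl rfl rfl (by decide) n_14_16_10_16 n_14_16_11_16
theorem k_15_16_5_8 : kexs bt 15 16 5 8 (exs (.B true 0)) = true := by decide +kernel
theorem n_15_16_5_8 : ∀ p ∈ leafBox 15 16 5 8, GoodAt p := leaf (.B true 0) (by decide) (by decide) k_15_16_5_8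
theorem n_7_8_5_8 : ∀ p ∈ leafBox 7 8 5 8, GoodAt p := splitX rfl rfl rfl (by decide) n_14_16_5_8 n_15_16_5_8
theorem n_7_8_2_4 : ∀ p ∈ leafBox 7 8 2 4, GoodAt p := splitY rfl rfl rfl (by decide) n_7_8_4_8 n_7_8_5_8

end H60Hg
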