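import Pool.Agent.H60.Hg.Good

/-! Certificate: leaves. -/

namespace H60Hg

theorem k_6_8_3_4 : kexs bt 6 8 3 4 (exs (.B true 0)) = true := by decide +kernel
theorem n_6_8_3_4 : ∀ p ∈ leafBox 6 8 3 4, GoodAt p := leaf (.B true 0) (by decide) (by decide) k_6_8_3_4
theorem k_14_16_6_8 : kexs bt 14 16 6 8 (exs (.B true 0)) = true := by decide +kernel
theorem n_14_16_6_8 : ∀ p ∈ leafBox 14 16 6 8, GoodAt p := leaf (.B true 0) (by decide) (by decide) k_14_16_6_8
theorem k_15_16_6_8 : kexs bt 15 16 6 8 (exs (.B true 0)) = true := by decide +kernel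
theorem n_15_16_6_8 : ∀ p ∈ leafBox 15 16 6 8, GoodAt p := leaf (.B true 0) (by decide) (by decide) k_15_16_6_8
theorem n_7_8_6_8 : ∀ p ∈ leafBox 7 8 6 8, GoodAt p := splitX rfl rfl rfl (by decide) n_14_16_6_8 n_15_16_6_8
theorem k_14_16_7_8 : kexs bt 14 16 7 8 (exs (.B true 0)) = true := by decide +kernel
theorem n_14_16_7_8 : ∀ p ∈ leafBox 14 16 7 8, GoodAt p := leaf (.B true 0) (by decide) (by decide) k_14_16_7_8
theorem k_15_16_14_16 : kexs bt 15 16 14 16 (exs (.B true 0)) = true := by decide +kernel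
theorem n_15_16_14_16 : ∀ p ∈ leafBox 15 16 14 16, GoodAt p := leaf (.B true 0) (by decide) (by decide) k_15_16_14_16
theorem k_30_32_15_16 : kexs bt 30 32 15 16 (exs (.B true 0)) = true := by decide +kernel
theorem n_30_32_15_16 : ∀ p ∈ leafBox 30 32 15 16, GoodAt p := leaf (.B true 0) (by decide) (by decide) k_30_32_15_16

end H60Hg
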