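import Pool.Agent.H60.Hg.Good

/-! Certificate: leaves. -/

namespace H60Hg

theorem k_31_32_30_32 : kexs bt 31 32 30 32 (exs (.B true 0)) = true := by decide +kernel
theorem n_31_32_30_32 : ∀ p ∈ leafBox 31 32 30 32, GoodAt p := leaf (.B true 0) (by decide) (by decide) k_31_32_30_32
theorem k_62_64_31_32 : kexs bt 62 64 31 32 (exs (.CQ true false)) = true := by decide +kernel
theorem n_62_64_31_32 : ∀ p ∈ leafBox 62 64 31 32, GoodAt p := leaf (.CQ true false) (by decide) (by decide) k_62_64_31_32

end H60Hg
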