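import Pool.Agent.H60.Hg.Good

/-! Certificate: leaves. -/

namespace H60Hg

theorem k_63_64_62_64 : kexs bt 63 64 62 64 (exs (.B true 0)) = true := by decide +kernel
theorem n_63_64_62_64 : ∀ p ∈ leafBox 63 64 62 64, GoodAt p := leaf (.B true 0) (by decide) (by decide) k_63_64_62_64
theorem k_126_128_63_64 : kexs bt 126 128 63 64 (exs (.CQ true false)) = true := by decide +kernel
theorem n_126_128_63_64 : ∀ p ∈ leafBox 126 128 63 64, GoodAt p := leaf (.CQ true false) (by decide) (by decide) k_126_128_63_64
theorem k_127_128_126_128 : kexs bt 127 128 126 128 (exs (.B true 0)) = true := by decide +kernel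
theorem n_127_128_126_128 : ∀ p ∈ leafBox 127 128 126 128, GoodAt p := leaf (.B true 0) (by decide) (by decide) k_127_128_126_128
theorem k_254_256_127_128 : kexs bt 254 256 127 128 (exs (.B true 0)) = true := by decide +kernel
theorem n_254_256_127_128 : ∀ p ∈ leafBox 254 256 127 128, GoodAt p := leaf (.B true 0) (by decide) (by decide) k_254_256_127_128
theorem k_255_256_254_256 : kexs bt 255 256 254 256 (exs (.B true 0)) = true := by decide +kernel
theorem n_255_256_254_256 : ∀ p ∈ leafBox 255 256 254 256, GoodAt p := leaf (.B true 0) (by decide) (by decide) k_255_256_254_256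
theorem k_255_256_255_256 : kexs bt 255 256 255 256 (exs (.CQ true true)) = true := by decide +kernel
theorem n_255_256_255_256 : ∀ p ∈ leafBox 255 256 255 256, GoodAt p := leaf (.CQ true true) (by decide) (by decide) k_255_256_255_256
theorem n_255_256_127_128 : ∀ p ∈ leafBox 255 256 127 128, GoodAt p := splitY rfl rfl rfl (by decide) n_255_256_254_256 n_255_256_255_256
theorem n_127_128_127_128 : ∀ p ∈ leafBox 127 128 127 128, GoodAt p := splitX rfl rfl rfl (by decide) n_254_256_127_128 n_255_256_127_128
theorem n_127_128_63_64 : ∀ p ∈ leafBox 127 128 63 64, GoodAt p := splitY rfl rfl rfl (by decide) n_127_128_126_128 n_127_128_127_128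
theorem n_63_64_63_64 : ∀ p ∈ leafBox 63 64 63 64, GoodAt p := splitX rfl rfl rfl (by decide) n_126_128_63_64 n_127_128_63_64
theorem n_63_64_31_32 : ∀ p ∈ leafBox 63 64 31 32, GoodAt p := splitY rfl rfl rfl (by decide) n_63_64_62_64 n_63_64_63_64

end H60Hg
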