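import Pool.Agent.H60.Hg.C.C00
import Pool.Agent.H60.Hg.C.C01
import Pool.Agent.H60.Hg.C.C02
import Pool.Agent.H60.Hg.C.C03
import Pool.Agent.H60.Hg.C.C04
import Pool.Agent.H60.Hg.C.C05
import Pool.Agent.H60.Hg.C.C06
import Pool.Agent.H60.Hg.C.C07
import Pool.Agent.H60.Hg.C.C08
import Pool.Agent.H60.Hg.C.C09
import Pool.Agent.H60.Hg.C.C10
import Pool.Agent.H60.Hg.C.C11
import Pool.Agent.H60.Hg.C.C12
import Pool.Agent.H60.Hg.C.C13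
import Pool.Agent.H60.Hg.C.C14
import Pool.Agent.H60.Hg.C.C15
import Pool.Agent.H60.Hg.C.C16
import Pool.Agent.H60.Hg.C.C17
import Pool.Agent.H60.Hg.C.C18
import Pool.Agent.H60.Hg.C.C19
import Pool.Agent.H60.Hg.C.C20
import Pool.Agent.H60.Hg.C.C21
import Pool.Agent.H60.Hg.C.C22
import Pool.Agent.H60.Hg.C.C23
import Pool.Agent.H60.Hg.C.C24
import Pool.Agent.H60.Hg.C.C25
import Pool.Agent.H60.Hg.C.C26
import Pool.Agent.H60.Hg.C.C27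
import Pool.Agent.H60.Hg.C.C28
import Pool.Agent.H60.Hg.C.C29
import Pool.Agent.H60.Hg.C.C30
import Pool.Agent.H60.Hg.C.C31
import Pool.Agent.H60.Hg.C.C32
import Pool.Agent.H60.Hg.C.C33
import Pool.Agent.H60.Hg.C.C34
import Pool.Agent.H60.Hg.C.C35
import Pool.Agent.H60.Hg.C.C36
import Pool.Agent.H60.Hg.C.C37
import Pool.Agent.H60.Hg.C.C38
import Pool.Agent.H60.Hg.C.C39
import Pool.Agent.H60.Hg.C.C40
import Pool.Agent.H60.Hg.C.C41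
import Pool.Agent.H60.Hg.C.C42
import Pool.Agent.H60.Hg.C.C43
import Pool.Agent.H60.Hg.C.C44
import Pool.Agent.H60.Hg.C.C45
import Pool.Agent.H60.Hg.C.C46
import Pool.Agent.H60.Hg.C.C47
import Pool.Agent.H60.Hg.C.C48
import Pool.Agent.H60.Hg.C.C49
import Pool.Agent.H60.Hg.C.C50
import Pool.Agent.H60.Hg.C.C51
import Pool.Agent.H60.Hg.C.C52

/-! Certificate: the unit square. -/

namespace H60Hg

theorem n_0_8_4_8 : ∀ p ∈ leafBox 0 8 4 8, GoodAt p := splitX rfl rfl rfl (by decide) n_0_16_4_8 n_1_16_4_8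
theorem n_0_16_10_16 : ∀ p ∈ leafBox 0 16 10 16, GoodAt p := splitX rfl rfl rfl (by decide) n_0_32_10_16 n_1_32_10_16
theorem n_0_16_5_8 : ∀ p ∈ leafBox 0 16 5 8, GoodAt p := splitY rfl rfl rfl (by decide) n_0_16_10_16 n_0_16_11_16
theorem n_0_8_5_8 : ∀ p ∈ leafBox 0 8 5 8, GoodAt p := splitX rfl rfl rfl (by decide) n_0_16_5_8 n_1_16_5_8
theorem n_0_8_2_4 : ∀ p ∈ leafBox 0 8 2 4, GoodAt p := splitY rfl rfl rfl (by decide) n_0_8_4_8 n_0_8_5_8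
theorem n_2_16_4_8 : ∀ p ∈ leafBox 2 16 4 8, GoodAt p := splitY rfl rfl rfl (by decide) n_2_16_8_16 n_2_16_9_16
theorem n_1_8_4_8 : ∀ p ∈ leafBox 1 8 4 8, GoodAt p := splitX rfl rfl rfl (by decide) n_2_16_4_8 n_3_16_4_8
theorem n_1_8_2_4 : ∀ p ∈ leafBox 1 8 2 4, GoodAt p := splitY rfl rfl rfl (by decide) n_1_8_4_8 n_1_8_5_8
theorem n_0_4_2_4 : ∀ p ∈ leafBox 0 4 2 4, GoodAt p := splitX rfl rfl rfl (by decide) n_0_8_2_4 n_1_8_2_4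
theorem n_0_8_6_8 : ∀ p ∈ leafBox 0 8 6 8, GoodAt p := splitX rfl rfl rfl (by decide) n_0_16_6_8 n_1_16_6_8
theorem n_0_8_3_4 : ∀ p ∈ leafBox 0 8 3 4, GoodAt p := splitY rfl rfl rfl (by decide) n_0_8_6_8 n_0_8_7_8
theorem n_0_4_3_4 : ∀ p ∈ leafBox 0 4 3 4, GoodAt p := splitX rfl rfl rfl (by decide) n_0_8_3_4 n_1_8_3_4
theorem n_2_8_0_8 : ∀ p ∈ leafBox 2 8 0 8, GoodAt p := splitX rfl rfl rfl (by decide) n_4_16_0_8 n_5_16_0_8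
theorem n_2_8_0_4 : ∀ p ∈ leafBox 2 8 0 4, GoodAt p := splitY rfl rfl rfl (by decide) n_2_8_0_8 n_2_8_1_8
theorem n_6_16_0_8 : ∀ p ∈ leafBox 6 16 0 8, GoodAt p := splitY rfl rfl rfl (by decide) n_6_16_0_16 n_6_16_1_16
theorem n_3_8_0_8 : ∀ p ∈ leafBox 3 8 0 8, GoodAt p := splitX rfl rfl rfl (by decide) n_6_16_0_8 n_7_16_0_8
theorem n_7_16_1_8 : ∀ p ∈ leafBox 7 16 1 8, GoodAt p := splitY rfl rfl rfl (by decide) n_7_16_2_16 n_7_16_3_16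
theorem n_3_8_1_8 : ∀ p ∈ leafBox 3 8 1 8, GoodAt p := splitX rfl rfl rfl (by decide) n_6_16_1_8 n_7_16_1_8
theorem n_3_8_0_4 : ∀ p ∈ leafBox 3 8 0 4, GoodAt p := splitY rfl rfl rfl (by decide) n_3_8_0_8 n_3_8_1_8
theorem n_1_4_0_4 : ∀ p ∈ leafBox 1 4 0 4, GoodAt p := splitX rfl rfl rfl (by decide) n_2_8_0_4 n_3_8_0_4
theorem n_1_4_1_4 : ∀ p ∈ leafBox 1 4 1 4, GoodAt p := splitX rfl rfl rfl (by decide) n_2_8_1_4 n_3_8_1_4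
theorem n_5_16_10_16 : ∀ p ∈ leafBox 5 16 10 16, GoodAt p := splitX rfl rfl rfl (by decide) n_10_32_10_16 n_11_32_10_16
theorem n_5_16_5_8 : ∀ p ∈ leafBox 5 16 5 8, GoodAt p := splitY rfl rfl rfl (by decide) n_5_16_10_16 n_5_16_11_16
theorem n_2_8_5_8 : ∀ p ∈ leafBox 2 8 5 8, GoodAt p := splitX rfl rfl rfl (by decide) n_4_16_5_8 n_5_16_5_8
theorem n_2_8_2_4 : ∀ p ∈ leafBox 2 8 2 4, GoodAt p := splitY rfl rfl rfl (by decide) n_2_8_4_8 n_2_8_5_8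
theorem n_6_16_10_16 : ∀ p ∈ leafBox 6 16 10 16, GoodAt p := splitX rfl rfl rfl (by decide) n_12_32_10_16 n_13_32_10_16
theorem n_6_16_5_8 : ∀ p ∈ leafBox 6 16 5 8, GoodAt p := splitY rfl rfl rfl (by decide) n_6_16_10_16 n_6_16_11_16
theorem n_3_8_5_8 : ∀ p ∈ leafBox 3 8 5 8, GoodAt p := splitX rfl rfl rfl (by decide) n_6_16_5_8 n_7_16_5_8
theorem n_3_8_2_4 : ∀ p ∈ leafBox 3 8 2 4, GoodAt p := splitY rfl rfl rfl (by decide) n_3_8_4_8 n_3_8_5_8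
theorem n_1_4_2_4 : ∀ p ∈ leafBox 1 4 2 4, GoodAt p := splitX rfl rfl rfl (by decide) n_2_8_2_4 n_3_8_2_4
theorem n_4_8_1_4 : ∀ p ∈ leafBox 4 8 1 4, GoodAt p := splitY rfl rfl rfl (by decide) n_4_8_2_8 n_4_8_3_8
theorem n_5_8_1_4 : ∀ p ∈ leafBox 5 8 1 4, GoodAt p := splitY rfl rfl rfl (by decide) n_5_8_2_8 n_5_8_3_8
theorem n_2_4_1_4 : ∀ p ∈ leafBox 2 4 1 4, GoodAt p := splitX rfl rfl rfl (by decide) n_4_8_1_4 n_5_8_1_4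
theorem n_4_8_4_8 : ∀ p ∈ leafBox 4 8 4 8, GoodAt p := splitX rfl rfl rfl (by decide) n_8_16_4_8 n_9_16_4_8
theorem n_4_8_2_4 : ∀ p ∈ leafBox 4 8 2 4, GoodAt p := splitY rfl rfl rfl (by decide) n_4_8_4_8 n_4_8_5_8
theorem n_2_4_2_4 : ∀ p ∈ leafBox 2 4 2 4, GoodAt p := splitX rfl rfl rfl (by decide) n_4_8_2_4 n_5_8_2_4
theorem n_3_4_0_4 : ∀ p ∈ leafBox 3 4 0 4, GoodAt p := splitX rfl rfl rfl (by decide) n_6_8_0_4 n_7_8_0_4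
theorem n_24_32_8_16 : ∀ p ∈ leafBox 24 32 8 16, GoodAt p := splitY rfl rfl rfl (by decide) n_24_32_16_32 n_24_32_17_32
theorem n_25_32_8_16 : ∀ p ∈ leafBox 25 32 8 16, GoodAt p := splitY rfl rfl rfl (by decide) n_25_32_16_32 n_25_32_17_32
theorem n_12_16_8_16 : ∀ p ∈ leafBox 12 16 8 16, GoodAt p := splitX rfl rfl rfl (by decide) n_24_32_8_16 n_25_32_8_16
theorem n_25_32_9_16 : ∀ p ∈ leafBox 25 32 9 16, GoodAt p := splitY rfl rfl rfl (by decide) n_25_32_18_32 n_25_32_19_32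
theorem n_12_16_9_16 : ∀ p ∈ leafBox 12 16 9 16, GoodAt p := splitX rfl rfl rfl (by decide) n_24_32_9_16 n_25_32_9_16
theorem n_12_16_4_8 : ∀ p ∈ leafBox 12 16 4 8, GoodAt p := splitY rfl rfl rfl (by decide) n_12_16_8_16 n_12_16_9_16
theorem n_26_32_9_16 : ∀ p ∈ leafBox 26 32 9 16, GoodAt p := splitY rfl rfl rfl (by decide) n_26_32_18_32 n_26_32_19_32
theorem n_13_16_9_16 : ∀ p ∈ leafBox 13 16 9 16, GoodAt p := splitX rfl rfl rfl (by decide) n_26_32_9_16 n_27_32_9_16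
theorem n_13_16_4_8 : ∀ p ∈ leafBox 13 16 4 8, GoodAt p := splitY rfl rfl rfl (by decide) n_13_16_8_16 n_13_16_9_16
theorem n_6_8_4_8 : ∀ p ∈ leafBox 6 8 4 8, GoodAt p := splitX rfl rfl rfl (by decide) n_12_16_4_8 n_13_16_4_8
theorem n_6_8_2_4 : ∀ p ∈ leafBox 6 8 2 4, GoodAt p := splitY rfl rfl rfl (by decide) n_6_8_4_8 n_6_8_5_8
theorem n_3_4_2_4 : ∀ p ∈ leafBox 3 4 2 4, GoodAt p := splitX rfl rfl rfl (by decide) n_6_8_2_4 n_7_8_2_4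
theorem n_31_32_31_32 : ∀ p ∈ leafBox 31 32 31 32, GoodAt p := splitX rfl rfl rfl (by decide) n_62_64_31_32 n_63_64_31_32
theorem n_31_32_15_16 : ∀ p ∈ leafBox 31 32 15 16, GoodAt p := splitY rfl rfl rfl (by decide) n_31_32_30_32 n_31_32_31_32
theorem n_15_16_15_16 : ∀ p ∈ leafBox 15 16 15 16, GoodAt p := splitX rfl rfl rfl (by decide) n_30_32_15_16 n_31_32_15_16
theorem n_15_16_7_8 : ∀ p ∈ leafBox 15 16 7 8, GoodAt p := splitY rfl rfl rfl (by decide) n_15_16_14_16 n_15_16_15_16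
theorem n_7_8_7_8 : ∀ p ∈ leafBox 7 8 7 8, GoodAt p := splitX rfl rfl rfl (by decide) n_14_16_7_8 n_15_16_7_8
theorem n_7_8_3_4 : ∀ p ∈ leafBox 7 8 3 4, GoodAt p := splitY rfl rfl rfl (by decide) n_7_8_6_8 n_7_8_7_8
theorem n_3_4_3_4 : ∀ p ∈ leafBox 3 4 3 4, GoodAt p := splitX rfl rfl rfl (by decide) n_6_8_3_4 n_7_8_3_4
theorem n_0_4_0_2 : ∀ p ∈ leafBox 0 4 0 2, GoodAt p := splitY rfl rfl rfl (by decide) n_0_4_0_4 n_0_4_1_4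
theorem n_1_4_0_2 : ∀ p ∈ leafBox 1 4 0 2, GoodAt p := splitY rfl rfl rfl (by decide) n_1_4_0_4 n_1_4_1_4
theorem n_0_2_0_2 : ∀ p ∈ leafBox 0 2 0 2, GoodAt p := splitX rfl rfl rfl (by decide) n_0_4_0_2 n_1_4_0_2
theorem n_0_4_1_2 : ∀ p ∈ leafBox 0 4 1 2, GoodAt p := splitY rfl rfl rfl (by decide) n_0_4_2_4 n_0_4_3_4
theorem n_1_4_1_2 : ∀ p ∈ leafBox 1 4 1 2, GoodAt p := splitY rfl rfl rfl (by decide) n_1_4_2_4 n_1_4_3_4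
theorem n_0_2_1_2 : ∀ p ∈ leafBox 0 2 1 2, GoodAt p := splitX rfl rfl rfl (by decide) n_0_4_1_2 n_1_4_1_2
theorem n_0_2_0_1 : ∀ p ∈ leafBox 0 2 0 1, GoodAt p := splitY rfl rfl rfl (by decide) n_0_2_0_2 n_0_2_1_2
theorem n_2_4_0_2 : ∀ p ∈ leafBox 2 4 0 2, GoodAt p := splitY rfl rfl rfl (by decide) n_2_4_0_4 n_2_4_1_4
theorem n_3_4_0_2 : ∀ p ∈ leafBox 3 4 0 2, GoodAt p := splitY rfl rfl rfl (by decide) n_3_4_0_4 n_3_4_1_4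
theorem n_1_2_0_2 : ∀ p ∈ leafBox 1 2 0 2, GoodAt p := splitX rfl rfl rfl (by decide) n_2_4_0_2 n_3_4_0_2
theorem n_2_4_1_2 : ∀ p ∈ leafBox 2 4 1 2, GoodAt p := splitY rfl rfl rfl (by decide) n_2_4_2_4 n_2_4_3_4
theorem n_3_4_1_2 : ∀ p ∈ leafBox 3 4 1 2, GoodAt p := splitY rfl rfl rfl (by decide) n_3_4_2_4 n_3_4_3_4
theorem n_1_2_1_2 : ∀ p ∈ leafBox 1 2 1 2, GoodAt p := splitX rfl rfl rfl (by decide) n_2_4_1_2 n_3_4_1_2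
theorem n_1_2_0_1 : ∀ p ∈ leafBox 1 2 0 1, GoodAt p := splitY rfl rfl rfl (by decide) n_1_2_0_2 n_1_2_1_2
theorem n_0_1_0_1 : ∀ p ∈ leafBox 0 1 0 1, GoodAt p := splitX rfl rfl rfl (by decide) n_0_2_0_1 n_1_2_0_1

end H60Hg
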