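import Pool.Agent.H60.Hg.Good

/-! Certificate: leaves. -/

namespace H60Hg

theorem k_0_8_0_4 : kexs bt 0 8 0 4 (exs (.B false 0)) = true := by decide +kernel
theorem n_0_8_0_4 : ∀ p ∈ leafBox 0 8 0 4, GoodAt p := leaf (.B false 0) (by decide) (by decide) k_0_8_0_4
theorem k_2_16_0_8 : kexs bt 2 16 0 8 (exs (.B false 0)) = true := by decide +kernel
theorem n_2_16_0_8 : ∀ p ∈ leafBox 2 16 0 8, GoodAt p := leaf (.B false 0) (by decide) (by decide) k_2_16_0_8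
theorem k_6_32_0_16 : kexs bt 6 32 0 16 (exs (.B false 0)) = true := by decide +kernel
theorem n_6_32_0_16 : ∀ p ∈ leafBox 6 32 0 16, GoodAt p := leaf (.B false 0) (by decide) (by decide) k_6_32_0_16
theorem k_7_32_0_16 : kexs bt 7 32 0 16 (exs (.B' false 1 2066 0)) = true := by decide +kernel
theorem n_7_32_0_16 : ∀ p ∈ leafBox 7 32 0 16, GoodAt p := leaf (.B' false 1 2066 0) (by decide) (by decide) k_7_32_0_16
theorem n_3_16_0_16 : ∀ p ∈ leafBox 3 16 0 16, GoodAt p := splitX rfl rfl rfl (by decide) n_6_32_0_16 n_7_32_0_16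
theorem k_3_16_1_16 : kexs bt 3 16 1 16 (exs (.B' false 1 13831 0)) = true := by decide +kernel
theorem n_3_16_1_16 : ∀ p ∈ leafBox 3 16 1 16, GoodAt p := leaf (.B' false 1 13831 0) (by decide) (by decide) k_3_16_1_16
theorem n_3_16_0_8 : ∀ p ∈ leafBox 3 16 0 8, GoodAt p := splitY rfl rfl rfl (by decide) n_3_16_0_16 n_3_16_1_16
theorem n_1_8_0_8 : ∀ p ∈ leafBox 1 8 0 8, GoodAt p := splitX rfl rfl rfl (by decide) n_2_16_0_8 n_3_16_0_8
theorem k_1_8_1_8 : kexs bt 1 8 1 8 (exs (.B false 0)) = true := by decide +kernel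
theorem n_1_8_1_8 : ∀ p ∈ leafBox 1 8 1 8, GoodAt p := leaf (.B false 0) (by decide) (by decide) k_1_8_1_8
theorem n_1_8_0_4 : ∀ p ∈ leafBox 1 8 0 4, GoodAt p := splitY rfl rfl rfl (by decide) n_1_8_0_8 n_1_8_1_8
theorem n_0_4_0_4 : ∀ p ∈ leafBox 0 4 0 4, GoodAt p := splitX rfl rfl rfl (by decide) n_0_8_0_4 n_1_8_0_4

end H60Hg
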