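import Pool.Agent.H60.Hg.Good

/-! Certificate: leaves. -/

namespace H60Hg

theorem k_10_32_0_16 : kexs bt 10 32 0 16 (exs .A) = true := by decide +kernel
theorem n_10_32_0_16 : ∀ p ∈ leafBox 10 32 0 16, GoodAt p := leaf .A (by decide) (by decide) k_10_32_0_16
theorem k_22_64_0_32 : kexs bt 22 64 0 32 (exs .A) = true := by decide +kernel
theorem n_22_64_0_32 : ∀ p ∈ leafBox 22 64 0 32, GoodAt p := leaf .A (by decide) (by decide) k_22_64_0_32
theorem k_23_64_0_32 : kexs bt 23 64 0 32 (exs (.B' true 1 0 1279173088)) = true := by decide +kernel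
theorem n_23_64_0_32 : ∀ p ∈ leafBox 23 64 0 32, GoodAt p := leaf (.B' true 1 0 1279173088) (by decide) (by decide) k_23_64_0_32
theorem n_11_32_0_32 : ∀ p ∈ leafBox 11 32 0 32, GoodAt p := splitX rfl rfl rfl (by decide) n_22_64_0_32 n_23_64_0_32
theorem k_11_32_1_32 : kexs bt 11 32 1 32 (exs (.B' true 1 0 1463116240)) = true := by decide +kernel
theorem n_11_32_1_32 : ∀ p ∈ leafBox 11 32 1 32, GoodAt p := leaf (.B' true 1 0 1463116240) (by decide) (by decide) k_11_32_1_32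
theorem n_11_32_0_16 : ∀ p ∈ leafBox 11 32 0 16, GoodAt p := splitY rfl rfl rfl (by decide) n_11_32_0_32 n_11_32_1_32
theorem n_5_16_0_16 : ∀ p ∈ leafBox 5 16 0 16, GoodAt p := splitX rfl rfl rfl (by decide) n_10_32_0_16 n_11_32_0_16
theorem k_5_16_1_16 : kexs bt 5 16 1 16 (exs .A) = true := by decide +kernel
theorem n_5_16_1_16 : ∀ p ∈ leafBox 5 16 1 16, GoodAt p := leaf .A (by decide) (by decide) k_5_16_1_16
theorem n_5_16_0_8 : ∀ p ∈ leafBox 5 16 0 8, GoodAt p := splitY rfl rfl rfl (by decide) n_5_16_0_16 n_5_16_1_16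

end H60Hg
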