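import Pool.Agent.H60.Hg.Good

/-! Certificate: leaves. -/

namespace H60Hg

theorem k_12_32_20_32 : kexs bt 12 32 20 32 (exs (.B' true 1 0 402167)) = true := by decide +kernel
theorem n_12_32_20_32 : ∀ p ∈ leafBox 12 32 20 32, GoodAt p := leaf (.B' true 1 0 402167) (by decide) (by decide) k_12_32_20_32
theorem k_24_64_42_64 : kexs bt 24 64 42 64 (exs (.B' true 128 79 0)) = true := by decide +kernel
theorem n_24_64_42_64 : ∀ p ∈ leafBox 24 64 42 64, GoodAt p := leaf (.B' true 128 79 0) (by decide) (by decide) k_24_64_42_64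
theorem k_24_64_43_64 : kexs bt 24 64 43 64 (exs (.B true 0)) = true := by decide +kernel
theorem n_24_64_43_64 : ∀ p ∈ leafBox 24 64 43 64, GoodAt p := leaf (.B true 0) (by decide) (by decide) k_24_64_43_64
theorem n_24_64_21_32 : ∀ p ∈ leafBox 24 64 21 32, GoodAt p := splitY rfl rfl rfl (by decide) n_24_64_42_64 n_24_64_43_64
theorem k_50_128_42_64 : kexs bt 50 128 42 64 (exs (.B' true 128 115 0)) = true := by decide +kernel
theorem n_50_128_42_64 : ∀ p ∈ leafBox 50 128 42 64, GoodAt p := leaf (.B' true 128 115 0) (by decide) (by decide) k_50_128_42_64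
theorem k_51_128_42_64 : kexs bt 51 128 42 64 (exs (.B' true 64 77 0)) = true := by decide +kernel
theorem n_51_128_42_64 : ∀ p ∈ leafBox 51 128 42 64, GoodAt p := leaf (.B' true 64 77 0) (by decide) (by decide) k_51_128_42_64
theorem n_25_64_42_64 : ∀ p ∈ leafBox 25 64 42 64, GoodAt p := splitX rfl rfl rfl (by decide) n_50_128_42_64 n_51_128_42_64
theorem k_25_64_43_64 : kexs bt 25 64 43 64 (exs (.B true 0)) = true := by decide +kernel
theorem n_25_64_43_64 : ∀ p ∈ leafBox 25 64 43 64, GoodAt p := leaf (.B true 0) (by decide) (by decide) k_25_64_43_64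
theorem n_25_64_21_32 : ∀ p ∈ leafBox 25 64 21 32, GoodAt p := splitY rfl rfl rfl (by decide) n_25_64_42_64 n_25_64_43_64
theorem n_12_32_21_32 : ∀ p ∈ leafBox 12 32 21 32, GoodAt p := splitX rfl rfl rfl (by decide) n_24_64_21_32 n_25_64_21_32
theorem n_12_32_10_16 : ∀ p ∈ leafBox 12 32 10 16, GoodAt p := splitY rfl rfl rfl (by decide) n_12_32_20_32 n_12_32_21_32

end H60Hg
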