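import Pool.Agent.H60.Hg.Good

/-! Certificate: leaves. -/

namespace H60Hg

theorem k_48_64_32_64 : kexs bt 48 64 32 64 (exs (.B true 0)) = true := by decide +kernel
theorem n_48_64_32_64 : ∀ p ∈ leafBox 48 64 32 64, GoodAt p := leaf (.B true 0) (by decide) (by decide) k_48_64_32_64
theorem k_48_64_33_64 : kexs bt 48 64 33 64 (exs (.B true 0)) = true := by decide +kernel
theorem n_48_64_33_64 : ∀ p ∈ leafBox 48 64 33 64, GoodAt p := leaf (.B true 0) (by decide) (by decide) k_48_64_33_64
theorem n_48_64_16_32 : ∀ p ∈ leafBox 48 64 16 32, GoodAt p := splitY rfl rfl rfl (by decide) n_48_64_32_64 n_48_64_33_64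
theorem k_49_64_32_64 : kexs bt 49 64 32 64 (exs (.B true 0)) = true := by decide +kernel
theorem n_49_64_32_64 : ∀ p ∈ leafBox 49 64 32 64, GoodAt p := leaf (.B true 0) (by decide) (by decide) k_49_64_32_64
theorem k_49_64_33_64 : kexs bt 49 64 33 64 (exs (.B true 0)) = true := by decide +kernel
theorem n_49_64_33_64 : ∀ p ∈ leafBox 49 64 33 64, GoodAt p := leaf (.B true 0) (by decide) (by decide) k_49_64_33_64
theorem n_49_64_16_32 : ∀ p ∈ leafBox 49 64 16 32, GoodAt p := splitY rfl rfl rfl (by decide) n_49_64_32_64 n_49_64_33_64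
theorem n_24_32_16_32 : ∀ p ∈ leafBox 24 32 16 32, GoodAt p := splitX rfl rfl rfl (by decide) n_48_64_16_32 n_49_64_16_32

end H60Hg
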